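import Pool.Agent.J4.H19.LR.Fg
import Pool.Agent.J4.H19.LQ.Adj

/-!
Finite generation of rings of sections on a model, with conditions only at the places which are
needed.
-/

set_option autoImplicit false
set_option linter.overlappingInstances false
set_option linter.unusedSectionVars false
set_option maxHeartbeats 400000

open FF MvPolynomial IntermediateField Pool.Agent.W603.LV Pool.Agent.W619.PQ
open Pool.Agent.W619.TW Pool.Agent.W602.GT Pool.Agent.TH122.AB Pool.Agent.TH756.PN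
open Pool.Agent.Y169.CH Pool.Agent.W602.Cov.G Pool.Agent.W602.Cov Pool.Agent.TH152.AC
open Pool.Agent.Y169.TH Pool.Agent.Y172 Pool.Agent.R887

namespace Pool.Agent.J4.H19.LC

namespace Cv

variable {d : ℕ} {Φ : Arr (d + 1)} {K : Type} [Field K] [Algebra ℂ K] {R : ℕ} (C : Cv Φ K R)
  {N : ℕ} {y : Fin (N + 1) → K} {s : ℕ} {ρ : Fin s → ℕ} {Δ δ : Fin s → Place ℂ K → ℚ}
  {a0 : Fin s → (Fin (d + 2) → ℕ) → ℚ} {W : Set (Place ℂ K)} {S0 : Finset (Fin (d + 2) → ℕ)}

/-- **Finite generation of rings of sections, on a model.** -/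
theorem fg_adjV (hy : NormalModel y) (hn : Algebra.trdeg ℂ K = ((d + 1 : ℕ) : Cardinal))
    (ha0 : ∀ i v, 0 ≤ a0 i v) (hunit : ∀ k, (fun i => if i = k then per C.M else 0) ∈ S0)
    (hsuff : ∀ P, IsPrimeDivisor y P → P ∈ C.LPl → C.vec P ≠ 0 →
      ∃ v' ∈ S0, v' ≤ C.vec P ∧ ∀ i, 1 - Δ i P ≤ a0 i v')
    (h3 : ∀ i P, IsPrimeDivisor y P → (P ∉ C.LPl ∨ C.vec P = 0) → 0 ≤ Δ i P)
    (hord : ∀ m ω, IsSec y (d + 1) ρ Δ m ω → ∀ Q ∈ W, Divisorial (d + 1) Q →
      OrdGe Q ω (-(∑ i, (ρ i * m i : ℚ) * δ i Q)))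
    {T : {v // v ∈ S0} → C.Dir} (hT : ∀ s, (T s).v = s.1)
    (hW : ∀ P ∈ C.LPl, C.Need T P → P ∈ W)
    (hδ0 : ∀ i, ∀ P ∈ W, ∀ α, Dat P Φ.F Φ.dF C.x α 0 → δ i P ≤ 0)
    (hδ1 : ∀ i, ∀ P ∈ W, δ i P ≤ 1)
    (hδ2 : ∀ i, ∀ v ∈ S0, ∀ P ∈ W, ∀ (α : ℤ) (v' : Fin (d + 2) → ℕ) (g : ℕ),
      Dat P Φ.F Φ.dF C.x α v' → v' ≠ 0 → 1 ≤ g → v = (fun k => g * v' k) →
      a0 i v ≤ g * (1 - δ i P)) :
    ∃ (t : ℕ) (e : Fin t → Fin s → ℕ) (σ : Fin t → (Fin (d + 1) → Derivation ℂ K K) → K),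
      (∀ j, IsSec y (d + 1) ρ Δ (e j) (σ j)) ∧ ∀ m ω, IsSec y (d + 1) ρ Δ m ω →
        ω ∈ Submodule.span ℂ {τ | ∃ c : Fin t → ℕ, ∑ j, c j • e j = m ∧
          τ = fun E => ∏ j, σ j E ^ c j} := by
  classical
  obtain ⟨D0, hD0⟩ := exists_dual C.u_bas
  have hD : ∀ i j, D0 i (C.u j) = if i = j then 1 else 0 := by
    intro i j
    have h1 := congrFun (congrFun hD0 i) j
    rw [Matrix.of_apply, Matrix.one_apply] at h1
    exact h1
  have hfr : IsFrame D0 := fun F => ⟨fun j => F (C.u j),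
    (Pool.Agent.W73.PG.PULL.expand C.u C.u_bas D0 hD F).symm⟩
  have hdiv : ∀ P, IsPrimeDivisor y P → Divisorial (d + 1) P := fun P hP => hP.divisorial hy hn
  have hbw0 : bw D0 C.x = 1 := by
    rw [Pool.Agent.W930.CG.bw_one D0 C.x C.hx0]
    change (Matrix.of fun i j => D0 i (C.u j)).det = 1
    have h1 : (Matrix.of fun i j => D0 i (C.u j)) = (1 : Matrix (Fin (d + 1)) (Fin (d + 1)) K) := by
      ext i j
      rw [Matrix.of_apply, Matrix.one_apply, hD]
    rw [h1, Matrix.det_one]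
  refine gens_of_fg hfr ?_
  refine C.fg_mainV (ρ := ρ) (δ := δ) hunit hT hW hδ0 hδ1 hδ2
    hD (V := secV y ρ Δ D0) (fun p => Iff.rfl) (fun m f hf => ?_) fun m u hu1 hu2 => ?_
  · obtain ⟨ω, hω, hωf⟩ := mem_secV.1 hf
    refine ⟨ω, hωf, hω.1, fun Q hQW hQ E hE => ?_⟩
    refine (hord m ω hω Q hQW hQ E hE).imp id fun h2 => ⟨1, by simp, one_ne_zero, ?_⟩
    rw [Q.ord_one]
    have hwt : ((∑ i, ρ i * m i : ℕ) : ℚ) = ∑ i, (ρ i * m i : ℚ) := by
      push_cast
      rfl
    have h5 : -(((∑ i, ρ i * m i : ℕ) : ℚ) * ((∑ i, (ρ i * m i : ℚ) * δ i Q) /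
        (∑ i, ρ i * m i : ℕ))) ≤ Q.ord (ω E) := by
      by_cases h0 : ((∑ i, ρ i * m i : ℕ) : ℚ) = 0
      · have h8 : ∀ i ∈ Finset.univ, (ρ i * m i : ℚ) = 0 := by
          rw [hwt] at h0
          exact (Finset.sum_eq_zero_iff_of_nonneg fun i _ => by positivity).1 h0
        have h9 : ∑ i, (ρ i * m i : ℚ) * δ i Q = 0 :=
          Finset.sum_eq_zero fun i hi => by rw [h8 i hi, zero_mul]
        rw [h9, neg_zero] at h2
        rw [h0, zero_mul, neg_zero]
        exact h2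
      · rw [mul_div_cancel₀ _ h0]
        exact h2
    have h6 : ((-(((∑ i, ρ i * m i : ℕ) : ℚ) * ((∑ i, (ρ i * m i : ℚ) * δ i Q) /
        (∑ i, ρ i * m i : ℕ))) : ℚ) : ℝ) ≤ ((Q.ord (ω E) : ℚ) : ℝ) := by exact_mod_cast h5
    push_cast at h6 ⊢
    linarith
  · rw [mem_secV]
    obtain ⟨M, hM⟩ : ∃ M : ℕ, M = ∑ i, ρ i * m i := ⟨_, rfl⟩
    have hMq : (M : ℚ) = ∑ i, (ρ i * m i : ℚ) := by
      rw [hM]
      push_cast
      rfl
    rw [← hM] at hu1 ⊢
    have hval : C.mon M u D0 = C.Ex M u := by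
      unfold mon
      rw [hbw0, one_pow, one_mul]
    refine ⟨C.mon M u, ⟨?_, fun P hP => ?_⟩, hval⟩
    · have h1 : wt ρ m = M := hM.symm
      rw [h1]
      exact C.mon_pluri M u
    -- the exponents are not negative
    have hper : (0 : ℚ) < per C.M := by exact_mod_cast per_pos C.hM
    have hu0 : ∀ k, (0 : ℚ) ≤ u k := by
      intro k
      have h1 := hu2 _ (hunit k)
      have h2 : 0 ≤ ∑ i, (ρ i * m i : ℚ) * a0 i (fun i => if i = k then per C.M else 0) :=
        Finset.sum_nonneg fun i _ => mul_nonneg (by positivity) (ha0 i _)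
      have h3 := h2.trans h1
      rw [Finset.sum_eq_single k] at h3
      · rw [if_pos rfl] at h3
        exact nonneg_of_mul_nonneg_right h3 hper
      · intro i _ hi
        rw [if_neg hi, Nat.cast_zero, zero_mul]
      · intro h
        exact absurd (Finset.mem_univ _) h
    rcases Nat.eq_zero_or_pos M with h0 | h0
    · -- the constants
      have hz : ∀ i ∈ Finset.univ, (ρ i * m i : ℚ) = 0 := by
        rw [h0, Nat.cast_zero] at hMq
        exact (Finset.sum_eq_zero_iff_of_nonneg fun i _ => by positivity).1 hMq.symm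
      have hdv : dv ρ Δ m P = 0 := Finset.sum_eq_zero fun i hi => by rw [hz i hi, zero_mul]
      have hu : u = 0 := by
        rw [h0, Nat.cast_zero, mul_zero] at hu1
        have h1 : ∀ k ∈ Finset.univ, (Φ.dF k : ℤ) * u k = 0 := by
          refine (Finset.sum_eq_zero_iff_of_nonneg fun k _ => mul_nonneg (by positivity) ?_).1 hu1
          exact_mod_cast hu0 k
        funext k
        have h2 : (Φ.dF k : ℤ) ≠ 0 := by exact_mod_cast (Φ.hd k).ne'
        exact (mul_eq_zero.1 (h1 k (Finset.mem_univ k))).resolve_left h2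
      rw [hdv, hu, h0]
      intro E _
      right
      have h1 : C.mon 0 0 E = 1 := by
        unfold mon Ex
        simp
      rw [h1, P.ord_one]
      simp
    · have hMpos : (0 : ℚ) < M := by exact_mod_cast h0
      have hp : (fun k => (u k : ℚ) / M) ∈ PiB C.M C.a Φ.dF (fun _ => 1) 0 := by
        refine ⟨?_, fun v hv => ?_⟩
        · have h1 : ∑ k, (Φ.dF k : ℚ) * ((u k : ℚ) / M) = (∑ k, (Φ.dF k : ℚ) * u k) / M := by
            rw [Finset.sum_div]
            exact Finset.sum_congr rfl fun k _ => by ring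
          have h2 : ∑ k, (Φ.dF k : ℚ) * u k = (∑ k, (Φ.dF k : ℚ) - (d + 2)) * M := by
            have h4 : ((∑ k, (Φ.dF k : ℤ) * u k : ℤ) : ℚ) =
                (((∑ k, (Φ.dF k : ℤ) - (d + 2)) * M : ℤ) : ℚ) := by rw [hu1]
            push_cast at h4
            exact h4
          rw [h1, h2, mul_div_assoc, div_self hMpos.ne']
          push_cast
          ring
        · rw [sub_self]
          exact Finset.sum_nonneg fun k _ => mul_nonneg (by positivity)
            (div_nonneg (hu0 k) hMpos.le)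
      have hdot : (M : ℚ) * ∑ k, (C.vec P k : ℚ) * ((u k : ℚ) / M) = ∑ k, (C.vec P k : ℚ) * u k := by
        rw [Finset.mul_sum]
        refine Finset.sum_congr rfl fun k _ => ?_
        field_simp
      have hdot0 : 0 ≤ ∑ k, (C.vec P k : ℚ) * u k :=
        Finset.sum_nonneg fun k _ => mul_nonneg (by positivity) (hu0 k)
      intro E hE
      obtain ⟨α, -, hdat⟩ := C.exists_vec P
      refine (C.mon_lowB hp (T := M) (w := u) (fun k => by rw [mul_div_cancel₀ _ hMpos.ne'])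
        (hdiv P hP) hdat hE).imp id ?_
      rintro ⟨h1, h2⟩
      have hdvs : dv ρ Δ m P = ∑ i, (ρ i * m i : ℚ) * Δ i P := rfl
      by_cases hv : C.vec P = 0
      · rw [if_pos hv, zero_mul, add_zero, sub_zero, hdot] at h1
        have h4 : 0 ≤ dv ρ Δ m P := Finset.sum_nonneg fun i _ =>
          mul_nonneg (by positivity) (h3 i P hP (Or.inr hv))
        linarith
      · by_cases hPL : P ∈ C.LPl
        · rw [if_neg hv, zero_mul, add_zero, mul_sub, hdot, mul_one] at h1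
          obtain ⟨v', hv', hle, hb⟩ := hsuff P hP hPL hv
          have h4 := hu2 v' hv'
          have h5 : ∑ k, (v' k : ℚ) * u k ≤ ∑ k, (C.vec P k : ℚ) * u k := by
            refine Finset.sum_le_sum fun k _ => mul_le_mul_of_nonneg_right ?_ (hu0 k)
            exact_mod_cast hle k
          have h6 : ∑ i, (ρ i * m i : ℚ) * (1 - Δ i P) ≤ ∑ i, (ρ i * m i : ℚ) * a0 i v' :=
            Finset.sum_le_sum fun i _ => mul_le_mul_of_nonneg_left (hb i) (by positivity)
          have h7 : ∑ i, (ρ i * m i : ℚ) * (1 - Δ i P) = M - dv ρ Δ m P := by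
            rw [hdvs, hMq, ← Finset.sum_sub_distrib]
            exact Finset.sum_congr rfl fun i _ => by ring
          linarith
        · have h6 := h2 hPL
          rw [if_neg hv, zero_mul, add_zero, sub_add_cancel, hdot] at h6
          have h4 : 0 ≤ dv ρ Δ m P := Finset.sum_nonneg fun i _ =>
            mul_nonneg (by positivity) (h3 i P hP (Or.inl hPL))
          linarith

end Cv

end Pool.Agent.J4.H19.LC
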