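import Pool.Agent.J4.H19.LR.Fin

/-!
Finite generation of the Cox rings of uniform divisors on models with trivial canonical class.
-/

set_option autoImplicit false
set_option linter.overlappingInstances false
set_option linter.unusedSectionVars false
set_option maxHeartbeats 400000

open FF MvPolynomial IntermediateField Pool.Agent.W603.LV Pool.Agent.W619.PQ
open Pool.Agent.W619.TW Pool.Agent.W602.GT Pool.Agent.TH122.AB Pool.Agent.TH756.PN
open Pool.Agent.Y169.CH Pool.Agent.W602.Cov.G Pool.Agent.W602.Cov Pool.Agent.TH152.AC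
open Pool.Agent.Y169.TH Pool.Agent.Y172 Pool.Agent.R887

namespace Pool.Agent.J4.H19.LC

section

variable {K : Type} [Field K] [Algebra ℂ K] {N s : ℕ}

/-- `f` is a section of `∑ m i L i` -/
def FSec (y : Fin (N + 1) → K) (L : Fin s → Place ℂ K → ℚ) (m : Fin s → ℕ) (f : K) : Prop :=
  f = 0 ∨ ∀ P, IsPrimeDivisor y P → -(∑ i, (m i : ℚ) * L i P) ≤ (P.ord f : ℚ)

variable {y : Fin (N + 1) → K} {L : Fin s → Place ℂ K → ℚ}

/-- the order of the sections along other divisors is bounded from below -/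
theorem fsec_bound (hy : NormalModel y) (hfin : ∀ i, {P | IsPrimeDivisor y P ∧ L i P ≠ 0}.Finite)
    {B : ℕ} (hB : ∀ i P, IsPrimeDivisor y P → L i P ≤ B) (Q : Place ℂ K) :
    ∃ c : ℕ, ∀ m f, FSec y L m f → f ≠ 0 → -((c * ∑ i, m i : ℕ) : ℤ) ≤ Q.ord f := by
  classical
  obtain ⟨j, hj⟩ := exists_centred hy Q
  obtain ⟨S, hS⟩ : ∃ S : Set (Place ℂ K), S =
    {P | (∃ i, IsPrimeDivisor y P ∧ L i P ≠ 0) ∧ Centred y j P} := ⟨_, rfl⟩
  have hSf : S.Finite := by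
    refine (Set.finite_iUnion hfin).subset ?_
    rw [hS]
    rintro P ⟨⟨i, h1⟩, -⟩
    exact Set.mem_iUnion.2 ⟨i, h1⟩
  obtain ⟨g, hg, hg0, hgP⟩ := exists_high (y := y) (j := j) hSf (fun P hP => by
    rw [hS] at hP
    exact hP.2) (fun P hP => by
    rw [hS] at hP
    obtain ⟨⟨i, h1, -⟩, -⟩ := hP
    exact h1) fun _ => B
  have hgl : g ∈ localRing y Q := chart_localRing hj hg
  have hg1 : 0 ≤ Q.ord g := (Q.reg_iff hg0).1 (localRing_reg hgl)
  refine ⟨(Q.ord g).toNat, fun m f hf hf0 => ?_⟩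
  have hf := hf.resolve_left hf0
  have h1 : f * g ^ (∑ i, m i) ∈ localRing y Q := by
    refine mem_localRing_of_reg hy fun P hP hPt => ?_
    right
    rw [P.ord_mul hf0 (pow_ne_zero _ hg0), P.ord_pow]
    have h2 := hf P hP
    have h4 : ∑ i, (m i : ℚ) * L i P ≤ ((∑ i, m i : ℕ) : ℚ) * P.ord g := by
      rw [Nat.cast_sum, Finset.sum_mul]
      refine Finset.sum_le_sum fun i _ => mul_le_mul_of_nonneg_left ?_ (by positivity)
      by_cases h0 : L i P = 0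
      · rw [h0]
        have h5 := (P.reg_iff hg0).1 (hPt g hgl)
        exact_mod_cast h5
      · have h5 : P ∈ S := by
          rw [hS]
          exact ⟨⟨i, hP, h0⟩, hPt.centred hj⟩
        have h6 := hgP P h5
        have h7 : ((B : ℕ) : ℚ) ≤ P.ord g := by exact_mod_cast h6
        exact (hB i P hP).trans h7
    have h5 : (0 : ℚ) ≤ ((P.ord f + (∑ i, m i : ℕ) * P.ord g : ℤ) : ℚ) := by
      push_cast at h4 ⊢
      linarith
    exact_mod_cast h5
  have h2 := (Q.reg_iff (mul_ne_zero hf0 (pow_ne_zero _ hg0))).1 (localRing_reg h1)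
  rw [Q.ord_mul hf0 (pow_ne_zero _ hg0), Q.ord_pow] at h2
  have h3 : (((Q.ord g).toNat * ∑ i, m i : ℕ) : ℤ) = (∑ i, m i : ℕ) * Q.ord g := by
    push_cast
    rw [Int.toNat_of_nonneg hg1]
    ring
  rw [h3]
  linarith

end

namespace Cv

variable {d : ℕ} {Φ : Arr (d + 1)} {K : Type} [Field K] [Algebra ℂ K] {R : ℕ} (C : Cv Φ K R)
  {N : ℕ} {y : Fin (N + 1) → K} {s : ℕ} {L : Fin s → Place ℂ K → ℚ} {r : ℕ}
  {η : (Fin (d + 1) → Derivation ℂ K K) → K}

/-- the conditions for the divisors -/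
structure UnC (y : Fin (N + 1) → K) (L : Fin s → Place ℂ K → ℚ) : Prop where
  fin : ∀ i, {P | IsPrimeDivisor y P ∧ L i P ≠ 0}.Finite
  u1 : ∀ i P P', IsPrimeDivisor y P → IsPrimeDivisor y P' → P ∈ C.LPl → P' ∈ C.LPl →
    C.vec P = C.vec P' → L i P = L i P'
  u0 : ∀ i P, IsPrimeDivisor y P → P ∈ C.LPl → C.vec P = 0 → L i P = 0
  u2 : ∀ i P, IsPrimeDivisor y P → P ∉ C.LPl → 0 ≤ L i P

/-- the test vectors -/
theorem exists_S0 (hfin : ∀ i, {P | IsPrimeDivisor y P ∧ L i P ≠ 0}.Finite) :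
    ∃ S0 : Finset (Fin (d + 2) → ℕ), (∀ v ∈ S0, Adm C.M C.a v) ∧
      (∀ k, (fun i => if i = k then per C.M else 0) ∈ S0) ∧
      ∀ P, IsPrimeDivisor y P → P ∈ C.LPl → C.vec P ≠ 0 → ∃ v' ∈ S0, v' ≤ C.vec P ∧
        ∃ P', IsPrimeDivisor y P' ∧ P' ∈ C.LPl ∧ C.vec P' ≠ 0 ∧ C.vec P' = v' ∧
          ∀ i, L i P' = L i P := by
  classical
  obtain ⟨X, hX⟩ : ∃ X : (Fin s → ℚ) → Set (Fin (d + 2) → ℕ), X = fun c =>
    {v | ∃ P', IsPrimeDivisor y P' ∧ P' ∈ C.LPl ∧ C.vec P' ≠ 0 ∧ C.vec P' = v ∧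
      ∀ i, L i P' = c i} := ⟨_, rfl⟩
  choose T hT1 hT2 using fun c => exists_min (X c)
  have hr : {c : Fin s → ℚ | ∃ P, IsPrimeDivisor y P ∧ c = fun i => L i P}.Finite := by
    have h1 : ∀ i, (insert 0 ((fun P => L i P) '' {P | IsPrimeDivisor y P ∧ L i P ≠ 0})).Finite :=
      fun i => ((hfin i).image _).insert 0
    refine (Set.Finite.pi' h1).subset ?_
    rintro _ ⟨P, hP, rfl⟩ i
    by_cases h0 : L i P = 0
    · exact Or.inl h0
    · exact Or.inr ⟨P, ⟨hP, h0⟩, rfl⟩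
  refine ⟨hr.toFinset.biUnion T ∪
    Finset.univ.image fun (k : Fin (d + 2)) => (fun i => if i = k then per C.M else 0), ?_, ?_, ?_⟩
  · intro v hv
    rcases Finset.mem_union.1 hv with hv | hv
    · rw [Finset.mem_biUnion] at hv
      obtain ⟨c, -, hc⟩ := hv
      have h1 := hT1 c v hc
      rw [hX] at h1
      obtain ⟨P', -, -, h2, rfl, -⟩ := h1
      obtain ⟨α, -, hdat⟩ := C.exists_vec P'
      exact C.adm hdat h2
    · obtain ⟨k, -, rfl⟩ := Finset.mem_image.1 hv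
      exact C.adm_unit k
  · intro k
    exact Finset.mem_union_right _ (Finset.mem_image_of_mem _ (Finset.mem_univ k))
  · intro P hP hPL hv
    obtain ⟨v', hv', hle⟩ := hT2 (fun i => L i P) (C.vec P) (by
      rw [hX]
      exact ⟨P, hP, hPL, hv, rfl, fun _ => rfl⟩)
    refine ⟨v', Finset.mem_union_left _ (Finset.mem_biUnion.2 ⟨fun i => L i P, ?_, hv'⟩), hle, ?_⟩
    · rw [Set.Finite.mem_toFinset]
      exact ⟨P, hP, rfl⟩
    · have h1 := hT1 _ v' hv'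
      rw [hX] at h1
      exact h1

/-- **The Cox ring of uniform divisors on a model with trivial canonical class.** -/
theorem cox_mod (hy : NormalModel y) (hn : Algebra.trdeg ℂ K = ((d + 1 : ℕ) : Cardinal))
    (hr : 0 < r) (hη : Tri y (d + 1) r η) (h : C.UnC y L) :
    ∃ (t : ℕ) (e : Fin t → Fin s → ℕ) (σ : Fin t → K), (∀ j, FSec y L (e j) (σ j)) ∧
      ∀ m f, FSec y L m f → f ∈ Submodule.span ℂ {g : K | ∃ c : Fin t → ℕ, ∑ j, c j • e j = m ∧
        g = ∏ j, σ j ^ c j} := by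
  classical
  obtain ⟨D0, hD0⟩ := exists_dual C.u_bas
  have hD : ∀ i j, D0 i (C.u j) = if i = j then 1 else 0 := by
    intro i j
    have h1 := congrFun (congrFun hD0 i) j
    rw [Matrix.of_apply, Matrix.one_apply] at h1
    exact h1
  obtain ⟨hfr, ⟨c, hc⟩, hne⟩ := exists_cc hy hn C.u_bas hD
  have hdiv : ∀ P, IsPrimeDivisor y P → Divisorial (d + 1) P := fun P hP => hP.divisorial hy hn
  have hηD : η D0 ≠ 0 := by
    obtain ⟨Q0, -⟩ := C.exists_div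
    obtain ⟨P0, hP0, -⟩ := exists_through hy Q0
    exact hne r η hη.plu P0 _ (hη.gen P0 hP0)
  have hηP : ∀ P, IsPrimeDivisor y P → ((r : ℚ) * c P + P.ord (η D0)) = 0 := fun P hP =>
    ((hc P (hdiv P hP) _ η hη.plu _).2 hηD).1 (hη.gen P hP)
  -- the coefficients are bounded
  obtain ⟨B, hB⟩ : ∃ B : ℕ, ∀ i P, IsPrimeDivisor y P → |L i P| ≤ B := by
    have h1 : (⋃ i, (fun P => |L i P|) '' {P | IsPrimeDivisor y P ∧ L i P ≠ 0}).Finite :=
      Set.finite_iUnion fun i => (h.fin i).image _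
    obtain ⟨B, hB⟩ := h1.bddAbove
    obtain ⟨B', hB'⟩ := exists_nat_ge B
    refine ⟨B', fun i P hP => ?_⟩
    by_cases h0 : L i P = 0
    · rw [h0, abs_zero]
      positivity
    · exact (hB (Set.mem_iUnion.2 ⟨i, P, ⟨hP, h0⟩, rfl⟩)).trans hB'
  have hLB : ∀ i P, IsPrimeDivisor y P → L i P ≤ B := fun i P hP => (abs_le.1 (hB i P hP)).2
  have hLB' : ∀ i P, IsPrimeDivisor y P → -(B : ℚ) ≤ L i P := fun i P hP =>
    (abs_le.1 (hB i P hP)).1
  -- the test vectors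
  obtain ⟨S0, hadm, hunit, hsuff⟩ := C.exists_S0 (y := y) (L := L) h.fin
  choose T hT using fun s : {v // v ∈ S0} => C.exists_dir (hadm s.1 s.2)
  have hexc := C.fin_exc hy hn hη T
  -- the bounds at the exceptional places
  choose cQ hcQ using fun Q : Place ℂ K => fsec_bound hy h.fin hLB Q
  obtain ⟨B2, hB2⟩ : ∃ B2 : ℕ, ∀ Q ∈ {P : Place ℂ K | P ∈ C.LPl ∧ C.Need T P ∧
      Divisorial (d + 1) P ∧ ¬ IsPrimeDivisor y P}, cQ Q ≤ B2 := by
    obtain ⟨B2, hB2⟩ := (hexc.image cQ).bddAbove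
    exact ⟨B2, fun Q hQ => hB2 ⟨Q, hQ, rfl⟩⟩
  obtain ⟨k1, hk1⟩ : ∃ k1 : ℕ, k1 = 3 * B + 2 * B2 + 1 := ⟨_, rfl⟩
  have hk1pos : 0 < k1 := by omega
  have hrq : (1 : ℚ) ≤ r := by exact_mod_cast hr
  have hr0 : (0 : ℚ) < r := by linarith
  have hk1q : (k1 : ℚ) = 3 * B + 2 * B2 + 1 := by
    rw [hk1]
    push_cast
    ring
  have hBq : (0 : ℚ) ≤ B := by positivity
  have hB2q : (0 : ℚ) ≤ B2 := by positivity
  have hk1q0 : (0 : ℚ) < k1 := by exact_mod_cast hk1pos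
  obtain ⟨k0, hk0⟩ : ∃ k0 : ℚ, k0 = r * k1 := ⟨_, rfl⟩
  have hk0pos : 0 < k0 := by
    rw [hk0]
    positivity
  have hk0k1 : (k1 : ℚ) ≤ k0 := by
    rw [hk0]
    nlinarith
  have hB3 : 3 * (B : ℚ) ≤ k0 := by linarith
  have hBk : (B : ℚ) / k0 ≤ 1 / (2 * r) := by
    rw [div_le_div_iff₀ hk0pos (by positivity), hk0]
    nlinarith
  have hBk3 : (B : ℚ) / k0 ≤ 1 / 3 := by
    rw [div_le_div_iff₀ hk0pos (by norm_num)]
    linarith
  have hLk : ∀ i P, IsPrimeDivisor y P → L i P / k0 ≤ B / k0 ∧ -(B / k0) ≤ L i P / k0 := by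
    intro i P hP
    refine ⟨div_le_div_of_nonneg_right (hLB i P hP) hk0pos.le, ?_⟩
    rw [← neg_div]
    exact div_le_div_of_nonneg_right (hLB' i P hP) hk0pos.le
  -- the data
  obtain ⟨ρ, hρ⟩ : ∃ ρ : Fin s → ℕ, ρ = fun _ => r * k1 := ⟨_, rfl⟩
  obtain ⟨Δ, hΔ⟩ : ∃ Δ : Fin s → Place ℂ K → ℚ, Δ = fun i P => L i P / k0 := ⟨_, rfl⟩
  obtain ⟨δ, hδ⟩ : ∃ δ : Fin s → Place ℂ K → ℚ, δ = fun i P =>
    if IsPrimeDivisor y P then L i P / k0 else if Divisorial (d + 1) P then -(1 / (2 * r)) else -1 :=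
    ⟨_, rfl⟩
  obtain ⟨Ch, hCh⟩ : ∃ Ch : (Fin (d + 2) → ℕ) → Place ℂ K → Prop, Ch = fun v P =>
    IsPrimeDivisor y P ∧ P ∈ C.LPl ∧ C.vec P ≠ 0 ∧ C.vec P = v := ⟨_, rfl⟩
  have hCh' : ∀ v P, Ch v P → IsPrimeDivisor y P ∧ P ∈ C.LPl ∧ C.vec P ≠ 0 ∧ C.vec P = v := by
    intro v P h1
    rw [hCh] at h1
    exact h1
  obtain ⟨a0, ha0d⟩ : ∃ a0 : Fin s → (Fin (d + 2) → ℕ) → ℚ, a0 = fun i v =>
    if h : ∃ P, Ch v P then 1 - L i h.choose / k0 else 0 := ⟨_, rfl⟩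
  have ha0 : ∀ i v, (a0 i v = 0 ∧ ¬ ∃ P, Ch v P) ∨
      (∃ P, Ch v P) ∧ ∀ P, Ch v P → a0 i v = 1 - L i P / k0 := by
    intro i v
    by_cases hex : ∃ P, Ch v P
    · right
      refine ⟨hex, fun P hP => ?_⟩
      rw [ha0d]
      dsimp only
      rw [dif_pos hex]
      have h1 := hCh' _ _ hex.choose_spec
      have h2 := hCh' _ _ hP
      rw [h.u1 i _ P h1.1 h2.1 h1.2.1 h2.2.1 (h1.2.2.2.trans h2.2.2.2.symm)]
    · left
      refine ⟨?_, hex⟩
      rw [ha0d]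
      dsimp only
      rw [dif_neg hex]
  have hwt : ∀ m : Fin s → ℕ, wt ρ m = r * (k1 * ∑ i, m i) := by
    intro m
    unfold wt
    rw [hρ, Finset.mul_sum, Finset.mul_sum]
    exact Finset.sum_congr rfl fun i _ => by ring
  have hρq : ∀ i, (ρ i : ℚ) = k0 := by
    intro i
    rw [hρ, hk0]
    push_cast
    ring
  have hdv : ∀ (m : Fin s → ℕ) P, dv ρ Δ m P = ∑ i, (m i : ℚ) * L i P := by
    intro m P
    unfold dv
    refine Finset.sum_congr rfl fun i _ => ?_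
    rw [hρq, hΔ]
    field_simp
  -- forms and functions
  have hsec : ∀ (m : Fin s → ℕ) ω, IsSec y (d + 1) ρ Δ m ω →
      FSec y L m (ω D0 / η D0 ^ (k1 * ∑ i, m i)) := by
    intro m ω hω
    by_cases h0 : ω D0 = 0
    · left
      rw [h0, zero_div]
    right
    intro P hP
    have h1 := ((hc P (hdiv P hP) _ ω hω.1 _).1.1 (hω.2 P hP)).resolve_left h0
    rw [hwt, hdv] at h1
    rw [P.ord_div h0 (pow_ne_zero _ hηD), P.ord_pow]
    have h2 := hηP P hP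
    push_cast at h1 ⊢
    have h3 : ((k1 : ℚ) * ∑ i, (m i : ℚ)) * ((r : ℚ) * c P + P.ord (η D0)) = 0 := by
      rw [h2, mul_zero]
    linarith
  have hsec' : ∀ (m : Fin s → ℕ) f, FSec y L m f → IsSec y (d + 1) ρ Δ m
      fun E => η E ^ (k1 * ∑ i, m i) * f := by
    intro m f hf
    have hp : IsPluri (wt ρ m) fun E => η E ^ (k1 * ∑ i, m i) * f := by
      rw [hwt]
      exact pluri_mulc (pluri_pow hη.plu _) _
    refine ⟨hp, fun P hP => (hc P (hdiv P hP) _ _ hp _).1.2 ?_⟩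
    rcases hf with rfl | hf
    · left
      rw [mul_zero]
    by_cases hf0 : f = 0
    · left
      rw [hf0, mul_zero]
    right
    rw [P.ord_mul (pow_ne_zero _ hηD) hf0, P.ord_pow, hwt, hdv]
    have h1 := hf P hP
    have h2 := hηP P hP
    push_cast
    have h3 : ((k1 : ℚ) * ∑ i, (m i : ℚ)) * ((r : ℚ) * c P + P.ord (η D0)) = 0 := by
      rw [h2, mul_zero]
    linarith
  have hA1 : ∀ i v, 0 ≤ a0 i v := by
    intro i v
    -- the numbers are not negative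
    rcases ha0 i v with ⟨h1, -⟩ | ⟨⟨P, hP⟩, h2⟩
    · rw [h1]
    · rw [h2 P hP]
      rw [hCh] at hP
      have := (hLk i P hP.1).1
      linarith
  have hA2 : ∀ P, IsPrimeDivisor y P → P ∈ C.LPl → C.vec P ≠ 0 →
      ∃ v' ∈ S0, v' ≤ C.vec P ∧ ∀ i, 1 - Δ i P ≤ a0 i v' := by
    intro P hP hPL hv
    obtain ⟨v', hv', hle, P', hP', hPL', hv0, hvP', hLP'⟩ := hsuff P hP hPL hv
    refine ⟨v', hv', hle, fun i => ?_⟩
    have h1 : Ch v' P' := by
      rw [hCh]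
      exact ⟨hP', hPL', hv0, hvP'⟩
    rcases ha0 i v' with ⟨-, h2⟩ | ⟨-, h2⟩
    · exact absurd ⟨P', h1⟩ h2
    · rw [h2 P' h1, hLP', hΔ]
  have hA3 : ∀ i P, IsPrimeDivisor y P → (P ∉ C.LPl ∨ C.vec P = 0) → 0 ≤ Δ i P := by
    intro i P hP h3
    rw [hΔ]
    refine div_nonneg ?_ hk0pos.le
    by_cases hPL : P ∈ C.LPl
    · rw [h.u0 i P hP hPL (h3.resolve_left (fun h => h hPL))]
    · exact h.u2 i P hP hPL
  have hA4 : ∀ m ω, IsSec y (d + 1) ρ Δ m ω → ∀ Q ∈ {P | P ∈ C.LPl ∧ C.Need T P},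
      Divisorial (d + 1) Q → OrdGe Q ω (-(∑ i, (ρ i * m i : ℚ) * δ i Q)) := by
    intro m ω hω Q hQW hQ
    -- the orders of the sections
    by_cases hQp : IsPrimeDivisor y Q
    · have h1 := hω.2 Q hQp
      have h2 : dv ρ Δ m Q = ∑ i, (ρ i * m i : ℚ) * δ i Q := by
        unfold dv
        refine Finset.sum_congr rfl fun i _ => ?_
        rw [hδ, hΔ]
        dsimp only
        rw [if_pos hQp]
      rw [← h2]
      exact h1
    · refine (hc Q hQ _ ω hω.1 _).1.2 ?_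
      by_cases h0 : ω D0 = 0
      · exact Or.inl h0
      right
      have h1 := hcQ Q m _ (hsec m ω hω) (div_ne_zero h0 (pow_ne_zero _ hηD))
      have h2 := hB2 Q ⟨hQW.1, hQW.2, hQ, hQp⟩
      have h3 := ((hc Q hQ _ η hη.plu _).1.1 (hη.ter Q hQ hQp)).resolve_left hηD
      rw [Q.ord_div h0 (pow_ne_zero _ hηD), Q.ord_pow] at h1
      obtain ⟨Mm, hMm⟩ : ∃ Mm : ℕ, Mm = ∑ i, m i := ⟨_, rfl⟩
      have hMmq : (Mm : ℚ) = ∑ i, (m i : ℚ) := by
        rw [hMm]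
        push_cast
        rfl
      rw [hwt]
      rw [← hMm] at h1 ⊢
      have h4 : ∑ i, (ρ i * m i : ℚ) * δ i Q = -(k1 * Mm / 2) := by
        have h5 : ∀ i, (ρ i * m i : ℚ) * δ i Q = -(k1 / 2) * m i := by
          intro i
          rw [hρq, hδ, hk0]
          dsimp only
          rw [if_neg hQp, if_pos hQ]
          field_simp
        rw [Finset.sum_congr rfl fun i _ => h5 i, ← Finset.mul_sum, ← hMmq]
        ring
      rw [h4, neg_neg]
      have h1' : (((-((cQ Q * Mm : ℕ) : ℤ)) : ℤ) : ℚ) ≤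
          ((Q.ord (ω D0) - (k1 * Mm : ℕ) * Q.ord (η D0) : ℤ) : ℚ) := by exact_mod_cast h1
      push_cast at h1' ⊢
      have h2' : (cQ Q : ℚ) ≤ B2 := by exact_mod_cast h2
      have hMm0 : (0 : ℚ) ≤ Mm := by positivity
      have h5 := mul_le_mul_of_nonneg_right h2' hMm0
      have h6 := mul_le_mul_of_nonneg_left h3 (show (0 : ℚ) ≤ k1 * Mm by positivity)
      have h7 : (0 : ℚ) ≤ B * Mm := by positivity
      have h8 : (k1 : ℚ) * Mm = 3 * (B * Mm) + 2 * (B2 * Mm) + Mm := by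
        rw [hk1q]
        ring
      linarith
  have hA5 : ∀ i, ∀ P ∈ {P | P ∈ C.LPl ∧ C.Need T P}, ∀ α, Dat P Φ.F Φ.dF C.x α 0 → δ i P ≤ 0 := by
    intro i P hPW α hdat
    have hv0 : C.vec P = 0 := C.vec_eq hdat
    rw [hδ]
    dsimp only
    split_ifs with h1 h2
    · by_cases hPL : P ∈ C.LPl
      · rw [h.u0 i P h1 hPL hv0, zero_div]
      · exact absurd hPW.1 hPL
    · have : (0 : ℚ) ≤ 1 / (2 * r) := by positivity
      linarith
    · norm_num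
  have hA6 : ∀ i, ∀ P ∈ {P | P ∈ C.LPl ∧ C.Need T P}, δ i P ≤ 1 := by
    intro i P _
    rw [hδ]
    dsimp only
    split_ifs with h1 h2
    · have := (hLk i P h1).1
      linarith
    · have : (0 : ℚ) ≤ 1 / (2 * r) := by positivity
      linarith
    · norm_num
  have hA7 : ∀ i, ∀ v ∈ S0, ∀ P ∈ {P | P ∈ C.LPl ∧ C.Need T P}, ∀ (α : ℤ)
      (v' : Fin (d + 2) → ℕ) (g : ℕ), Dat P Φ.F Φ.dF C.x α v' → v' ≠ 0 → 1 ≤ g →
      v = (fun k => g * v' k) → a0 i v ≤ g * (1 - δ i P) := by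
    intro i v _ P hPW α v' g hdat hv' hg hv
    have hg1 : (1 : ℚ) ≤ g := by exact_mod_cast hg
    have hvP : C.vec P = v' := C.vec_eq hdat
    have hδ1 : δ i P ≤ 1 / 3 := by
      rw [hδ]
      dsimp only
      split_ifs with h1 h2
      · exact (hLk i P h1).1.trans hBk3
      · have : (0 : ℚ) ≤ 1 / (2 * r) := by positivity
        linarith
      · norm_num
    rcases ha0 i v with ⟨h1, -⟩ | ⟨⟨P', hP'⟩, h2⟩
    · rw [h1]
      exact mul_nonneg (by linarith) (by linarith)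
    rw [h2 P' hP']
    rw [hCh] at hP'
    have hL' := hLk i P' hP'.1
    by_cases hPp : IsPrimeDivisor y P
    · have hδP : δ i P = L i P / k0 := by
        rw [hδ]
        dsimp only
        rw [if_pos hPp]
      by_cases hg' : g = 1
      · subst hg'
        have hvv : C.vec P = C.vec P' := by
          rw [hvP, hP'.2.2.2, hv]
          funext k
          simp
        rw [hδP, h.u1 i P P' hPp hP'.1 hPW.1 hP'.2.1 hvv]
        simp
      · have hg2 : (2 : ℚ) ≤ g := by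
          have : 2 ≤ g := by omega
          exact_mod_cast this
        have h3 : (2 : ℚ) * (1 - δ i P) ≤ g * (1 - δ i P) :=
          mul_le_mul_of_nonneg_right hg2 (by linarith)
        linarith
    · have hδP : 1 + B / k0 ≤ 1 - δ i P := by
        rw [hδ]
        dsimp only
        rw [if_neg hPp]
        split_ifs with h4
        · linarith
        · linarith
      have h3 : (1 : ℚ) * (1 - δ i P) ≤ g * (1 - δ i P) :=
        mul_le_mul_of_nonneg_right hg1 (by linarith)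
      linarith

  obtain ⟨t, e, σ, hσ, hspan⟩ := C.fg_adjV (ρ := ρ) (Δ := Δ) (δ := δ) (a0 := a0)
    (W := {P | P ∈ C.LPl ∧ C.Need T P}) (S0 := S0) hy hn hA1 hunit hA2 hA3 hA4 hT
    (fun P h1 h2 => ⟨h1, h2⟩) hA5 hA6 hA7
  refine ⟨t, e, fun j => σ j D0 / η D0 ^ (k1 * ∑ i, e j i), fun j => hsec _ _ (hσ j),
    fun m f hf => ?_⟩
  have h1 := hspan m _ (hsec' m f hf)
  obtain ⟨Λ, hΛ⟩ : ∃ Λ : ((Fin (d + 1) → Derivation ℂ K K) → K) →ₗ[ℂ] K,
    ∀ ω, Λ ω = (η D0 ^ (k1 * ∑ i, m i))⁻¹ * ω D0 :=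
    ⟨(LinearMap.mulLeft ℂ (η D0 ^ (k1 * ∑ i, m i))⁻¹).comp (evF D0), fun _ => rfl⟩
  have h2 := Submodule.mem_map_of_mem (f := Λ) h1
  rw [Submodule.map_span, hΛ] at h2
  have h3 : (η D0 ^ (k1 * ∑ i, m i))⁻¹ * (η D0 ^ (k1 * ∑ i, m i) * f) = f := by
    rw [← mul_assoc, inv_mul_cancel₀ (pow_ne_zero _ hηD), one_mul]
  rw [h3] at h2
  refine Submodule.span_mono ?_ h2
  rintro _ ⟨_, ⟨cc, hcc, rfl⟩, rfl⟩
  refine ⟨cc, hcc, ?_⟩
  rw [hΛ]
  dsimp only
  have h4 : ∑ i, m i = ∑ j, cc j * ∑ i, e j i := by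
    rw [← hcc]
    simp only [Finset.sum_apply, Pi.smul_apply, smul_eq_mul]
    rw [Finset.sum_comm]
    exact Finset.sum_congr rfl fun j _ => by rw [Finset.mul_sum]
  rw [h4]
  have h5 : η D0 ^ (k1 * ∑ j, cc j * ∑ i, e j i) = ∏ j, (η D0 ^ (k1 * ∑ i, e j i)) ^ cc j := by
    rw [Finset.mul_sum, ← Finset.prod_pow_eq_pow_sum]
    refine Finset.prod_congr rfl fun j _ => ?_
    rw [← pow_mul]
    congr 1
    ring
  rw [h5, ← Finset.prod_inv_distrib, ← Finset.prod_mul_distrib]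
  refine Finset.prod_congr rfl fun j _ => ?_
  rw [div_pow]
  field_simp

end Cv

end Pool.Agent.J4.H19.LC
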