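import Pool.Agent.J4.H19.LR.Adj
import Pool.Agent.J4.H19.LC.Eff
import Pool.Agent.W619.Y.LRes

/-!
The places which are needed and are not prime divisors of the model are finitely many.
-/

set_option autoImplicit false
set_option linter.overlappingInstances false
set_option linter.unusedSectionVars false
set_option maxHeartbeats 400000

open FF MvPolynomial IntermediateField Pool.Agent.W603.LV Pool.Agent.W619.PQ
open Pool.Agent.W619.TW Pool.Agent.W602.GT Pool.Agent.TH122.AB Pool.Agent.TH756.PN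
open Pool.Agent.Y169.CH Pool.Agent.W602.Cov.G Pool.Agent.W602.Cov Pool.Agent.TH152.AC
open Pool.Agent.Y169.TH Pool.Agent.Y172 Pool.Agent.R887

namespace Pool.Agent.J4.H19.LC

section

variable {K : Type} [Field K] [Algebra ℂ K] {n : ℕ}

/-- the places with given orders on the polynomials -/
theorem fin_prop {X : Fin n → K} (hX : AlgebraicIndependent ℂ X)
    (hfd : FiniteDimensional (IntermediateField.adjoin ℂ (Set.range X)) K)
    (w : MvPolynomial (Fin n) ℂ → ℤ) (hw : ∃ g, g ≠ 0 ∧ w g ≠ 0) :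
    {P : Place ℂ K | ∃ e : ℕ, 0 < e ∧ ∀ g : MvPolynomial (Fin n) ℂ, g ≠ 0 →
      P.ord (aeval X g) = e * w g}.Finite := by
  classical
  obtain ⟨L, hL⟩ : ∃ L, L = IntermediateField.adjoin ℂ (Set.range X) := ⟨_, rfl⟩
  rw [← hL] at hfd
  obtain ⟨Z, hZ⟩ : ∃ Z : Fin n → L, ∀ b, ((Z b : L) : K) = X b :=
    ⟨fun b => ⟨X b, by rw [hL]; exact IntermediateField.subset_adjoin ℂ _ ⟨b, rfl⟩⟩, fun _ => rfl⟩
  have hG : Gens (k := ℂ) Z := Pool.Agent.TH122.AB.gens_of hX hL hZ
  have hZX : (fun b => algebraMap L K (Z b)) = X := funext hZ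
  have hae : ∀ g : MvPolynomial (Fin n) ℂ, aeval X g = algebraMap L K (aeval Z g) := by
    intro g
    rw [← hZX]
    exact MvPolynomial.aeval_algebraMap_apply K Z g
  obtain ⟨g0, hg0, hwg0⟩ := hw
  obtain ⟨S, hS⟩ : ∃ S : Set (Place ℂ K), S = {P : Place ℂ K | ∃ e : ℕ, 0 < e ∧
    ∀ g : MvPolynomial (Fin n) ℂ, g ≠ 0 → P.ord (aeval X g) = e * w g} := ⟨_, rfl⟩
  rw [← hS]
  have hover : ∀ P ∈ S, ∃ (v : Place ℂ L) (a e : ℕ), 0 < a ∧ 0 < e ∧ Over P v a ∧
      ∀ g : MvPolynomial (Fin n) ℂ, g ≠ 0 → (a : ℤ) * v.ord (aeval Z g) = e * w g := by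
    intro P hP
    rw [hS] at hP
    obtain ⟨e, he, h1⟩ := hP
    have h2 : P.ord (algebraMap L K (aeval Z g0)) ≠ 0 := by
      rw [← hae, h1 g0 hg0]
      exact mul_ne_zero (by exact_mod_cast he.ne') hwg0
    obtain ⟨v, a, ha, hv⟩ := Pool.Agent.W619.Y.exists_restrict P (algebraMap L K)
      (fun c hc => by
        rw [← IsScalarTower.algebraMap_apply ℂ L K]
        exact P.ord_const hc) h2
    exact ⟨v, a, e, ha, he, ⟨ha, hv⟩, fun g hg => by rw [← hv, ← hae, h1 g hg]⟩
  by_cases hne : S.Nonempty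
  · obtain ⟨P0, hP0⟩ := hne
    obtain ⟨v0, a0, e0, ha0, he0, hov0, h0⟩ := hover P0 hP0
    refine (finite_over (k := ℂ) (K := L) (K' := K) v0).subset ?_
    intro P hP
    obtain ⟨v, a, e, ha, he, hov, h1⟩ := hover P hP
    suffices h : v = v0 by
      rw [h] at hov
      exact ⟨a, hov⟩
    have hrel : ∀ f : L, (a : ℤ) * e0 * v.ord f = a0 * e * v0.ord f := by
      intro f
      by_cases hf : f = 0
      · rw [hf, v.ord_zero, v0.ord_zero]
        ring
      obtain ⟨p, q, hq, rfl⟩ := hG.gen f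
      have hp : p ≠ 0 := by
        rintro rfl
        simp at hf
      rw [v.ord_div (hG.ne hp) (hG.ne hq), v0.ord_div (hG.ne hp) (hG.ne hq)]
      have h2 := h1 p hp
      have h3 := h1 q hq
      have h4 := h0 p hp
      have h5 := h0 q hq
      linear_combination (e0 : ℤ) * h2 - (e0 : ℤ) * h3 - (e : ℤ) * h4 + (e : ℤ) * h5
    have hA : (0 : ℤ) < (a : ℤ) * e0 := by positivity
    have hB : (0 : ℤ) < (a0 : ℤ) * e := by positivity
    obtain ⟨t, ht0, ht⟩ := v.surj
    obtain ⟨t', ht'0, ht'⟩ := v0.surj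
    have h2 := hrel t
    have h3 := hrel t'
    rw [ht, mul_one] at h2
    rw [ht', mul_one] at h3
    have hdvd1 : (a0 : ℤ) * e ∣ (a : ℤ) * e0 := ⟨_, h2⟩
    have hdvd2 : (a : ℤ) * e0 ∣ (a0 : ℤ) * e := ⟨_, h3.symm⟩
    have heq : (a : ℤ) * e0 = a0 * e := Int.dvd_antisymm hA.le hB.le hdvd2 hdvd1
    apply Place.ext
    funext f
    have h4 := hrel f
    rw [heq] at h4
    exact mul_left_cancel₀ hB.ne' h4
  · rw [Set.not_nonempty_iff_eq_empty.1 hne]
    exact Set.finite_empty

end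

namespace Cv

variable {d : ℕ} {Φ : Arr (d + 1)} {K : Type} [Field K] [Algebra ℂ K] {R : ℕ} (C : Cv Φ K R)

/-- the places over the place of an irreducible polynomial -/
theorem fin_adic (p : MvPolynomial (Fin (d + 1)) ℂ) : {P : Place ℂ K | C.AdicAt P p}.Finite := by
  classical
  by_cases hp : Irreducible p
  · refine (fin_prop C.u_bas.1 C.fin_u (fun g => (multiplicity p g : ℤ)) ⟨p, hp.ne_zero, ?_⟩).subset ?_
    · rw [multiplicity_self]
      exact one_ne_zero
    · intro P hP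
      obtain ⟨-, h1⟩ := hP
      have h2 := h1 p hp.ne_zero
      have h3 : P.ord (aeval C.u p) ≠ 0 := fun h => (h2.2.1 h) (dvd_refl p)
      refine ⟨(P.ord (aeval C.u p)).toNat, by omega, fun g hg => ?_⟩
      have hfin : FiniteMultiplicity p g := FiniteMultiplicity.of_not_isUnit hp.not_isUnit hg
      obtain ⟨c, hc, hc'⟩ := hfin.exists_eq_pow_mul_and_not_dvd
      have hc0 : c ≠ 0 := by
        rintro rfl
        exact hc' (dvd_zero _)
      have hne : ∀ q : MvPolynomial (Fin (d + 1)) ℂ, q ≠ 0 → aeval C.u q ≠ 0 := fun q hq h =>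
        hq ((injective_iff_map_eq_zero _).1 C.u_bas.1 q h)
      have h4 := (h1 c hc0).2.2 hc'
      conv_lhs => rw [hc]
      rw [map_mul, map_pow, P.ord_mul (pow_ne_zero _ (hne p hp.ne_zero)) (hne c hc0), P.ord_pow, h4,
        add_zero, Int.toNat_of_nonneg h2.1]
      ring
  · have : {P : Place ℂ K | C.AdicAt P p} = ∅ := by
      ext P
      simp only [Set.mem_ofPred_eq, Set.mem_empty_iff_false, iff_false]
      exact fun h => hp h.1
    rw [this]
    exact Set.finite_empty

/-- the places at infinity -/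
theorem fin_inf : {P : Place ℂ K | C.InfAt P}.Finite := by
  refine (fin_prop C.u_bas.1 C.fin_u (fun g => -(degB Finset.univ g : ℤ))
    ⟨MvPolynomial.X 0, X_ne_zero _, ?_⟩).subset ?_
  · have h6 : degB Finset.univ (MvPolynomial.X 0 : MvPolynomial (Fin (d + 1)) ℂ) = 1 := by
      unfold degB
      rw [support_X, Finset.sup_singleton, Finset.sum_eq_single (0 : Fin (d + 1))]
      · simp
      · intro b _ hb
        rw [Finsupp.single_apply, if_neg (Ne.symm hb)]
      · intro h
        exact absurd (Finset.mem_univ _) h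
    rw [h6]
    simp
  · intro P hP
    exact ⟨1, one_pos, fun g hg => by rw [hP g hg]; simp⟩

/-- the test places -/
theorem fin_test (T : C.Dir) : {P : Place ℂ K | C.TestAt T.lam P}.Finite := by
  obtain ⟨b0, hb0⟩ := T.ne
  refine (fin_prop C.bas_Y.1 C.fin_Y (fun g => zord T.lam g)
    ⟨MvPolynomial.X b0, X_ne_zero _, ?_⟩).subset ?_
  · rw [zord_X]
    exact hb0
  · intro P hP
    exact hP

/-- the places over the divisors of a polynomial -/
theorem fin_dvd {q : MvPolynomial (Fin (d + 1)) ℂ} (hq : q ≠ 0) :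
    {P : Place ℂ K | ∃ p, p ∣ q ∧ C.AdicAt P p}.Finite := by
  classical
  refine ((UniqueFactorizationMonoid.factors q).toFinset.finite_toSet.biUnion
    fun p _ => C.fin_adic p).subset ?_
  rintro P ⟨p, hpq, hp, h1⟩
  obtain ⟨p', hp', hass⟩ := UniqueFactorizationMonoid.exists_mem_factors_of_dvd hq hp hpq
  simp only [Set.mem_iUnion]
  refine ⟨p', by rw [Finset.mem_coe, Multiset.mem_toFinset]; exact hp', ?_⟩
  refine ⟨UniqueFactorizationMonoid.irreducible_of_factor p' hp', fun g hg => ?_⟩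
  rw [← hass.dvd_iff_dvd_left]
  exact h1 g hg

variable {N r : ℕ} {y : Fin (N + 1) → K} {η : (Fin (d + 1) → Derivation ℂ K K) → K}

/-- **The places which are needed and are not prime divisors of the model are finitely many.** -/
theorem fin_exc (hy : NormalModel y) (hn : Algebra.trdeg ℂ K = ((d + 1 : ℕ) : Cardinal))
    (hη : Tri y (d + 1) r η) {ι : Type} [Finite ι] (T : ι → C.Dir) :
    {P : Place ℂ K | P ∈ C.LPl ∧ C.Need T P ∧ Divisorial (d + 1) P ∧
      ¬ IsPrimeDivisor y P}.Finite := by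
  classical
  obtain ⟨D0, hD0⟩ := exists_dual C.u_bas
  have hD : ∀ i j, D0 i (C.u j) = if i = j then 1 else 0 := by
    intro i j
    have h1 := congrFun (congrFun hD0 i) j
    rw [Matrix.of_apply, Matrix.one_apply] at h1
    exact h1
  obtain ⟨hfr, ⟨c, hc⟩, hne⟩ := exists_cc hy hn C.u_bas hD
  have hbw0 : bw D0 C.x = 1 := by
    rw [Pool.Agent.W930.CG.bw_one D0 C.x C.hx0]
    change (Matrix.of fun i j => D0 i (C.u j)).det = 1
    have h1 : (Matrix.of fun i j => D0 i (C.u j)) = (1 : Matrix (Fin (d + 1)) (Fin (d + 1)) K) := by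
      ext i j
      rw [Matrix.of_apply, Matrix.one_apply, hD]
    rw [h1, Matrix.det_one]
  have hηD : η D0 ≠ 0 := by
    obtain ⟨Q0, -⟩ := C.exists_div
    obtain ⟨P0, hP0, -⟩ := exists_through hy Q0
    exact hne r η hη.plu P0 _ (hη.gen P0 hP0)
  obtain ⟨Q, hQ0, hQ⟩ := exists_mult C.u_bas (η D0)⁻¹
  have hne' : ∀ q : MvPolynomial (Fin (d + 1)) ℂ, q ≠ 0 → aeval C.u q ≠ 0 := fun q hq h =>
    hq ((injective_iff_map_eq_zero _).1 C.u_bas.1 q h)
  have hq0 : Q * ∏ t, deh (Φ.F t) ≠ 0 :=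
    mul_ne_zero hQ0 (Finset.prod_ne_zero_iff.2 fun t _ => deh_F_ne t)
  refine (((C.fin_dvd hq0).union C.fin_inf).union
    (Set.finite_iUnion fun s => C.fin_test (T s))).subset ?_
  rintro P ⟨hPL, hneed, hPd, hPp⟩
  rcases hneed with ⟨p, hp⟩ | h | ⟨s, hs⟩
  · left
    left
    refine ⟨p, ?_, hp⟩
    obtain ⟨hirr, hpo⟩ := hp
    obtain ⟨α, hα, hdat⟩ := C.exists_vec P
    have hα0 : α = 0 := by
      obtain ⟨j, hj⟩ := hdat.ha2
      have h1 : 0 ≤ P.ord (C.x j) := by
        refine Fin.cases ?_ (fun l => ?_) j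
        · rw [C.hx0, P.ord_one]
        · have h2 : C.x l.succ = aeval C.u (MvPolynomial.X l : MvPolynomial (Fin (d + 1)) ℂ) := by
            rw [aeval_X]; rfl
          rw [h2]
          exact (hpo _ (X_ne_zero _)).1
      omega
    by_cases hv : C.vec P = 0
    · refine Dvd.dvd.mul_right ?_ (∏ t, deh (Φ.F t))
      by_contra hpQ
      have h1 := (hpo Q hQ0).2.2 hpQ
      have hreg : ∀ g : MvPolynomial (Fin (d + 1)) ℂ, P.Reg (aeval C.u g) := by
        intro g
        by_cases hg : g = 0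
        · rw [hg, map_zero]
          exact P.reg_zero
        · exact Or.inr (hpo g hg).1
      have h2 := reg_of_int hreg hQ
      rw [P.reg_iff (mul_ne_zero (hne' Q hQ0) (inv_ne_zero hηD)),
        P.ord_mul (hne' Q hQ0) (inv_ne_zero hηD), P.ord_inv, h1, zero_add] at h2
      -- the order of the form
      have h3 := ((hc P hPd _ η hη.plu _).1.1 (hη.ter P hPd hPp)).resolve_left hηD
      obtain ⟨E, hE, hE0, hEo⟩ := hPL α _ hdat
      rw [hα0, if_pos hv, hv] at hEo
      simp only [mul_zero, Pi.zero_apply, Nat.cast_zero, Finset.sum_const_zero, add_zero,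
        sub_zero] at hEo
      have h4 : OrdGe P (fun E => bw E C.x) (c P) := by
        refine (hc P hPd 1 _ (bw_pluri C.x) _).1.2 (Or.inr ?_)
        change (c P : ℚ) ≤ (1 : ℕ) * c P + P.ord (bw D0 C.x)
        rw [hbw0, P.ord_one]
        simp
      have h5 := (h4 E hE).resolve_left hE0
      have h6 : (c P : ℤ) ≤ P.ord (bw E C.x) := by exact_mod_cast h5
      have h7 : c P ≤ 0 := h6.trans hEo
      have h8 : (c P : ℚ) ≤ 0 := by exact_mod_cast h7
      have h9 : ((r : ℚ)) * c P ≤ 0 := mul_nonpos_of_nonneg_of_nonpos (by positivity) h8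
      have h10 : (P.ord (η D0) : ℚ) ≤ 0 := by
        have : P.ord (η D0) ≤ 0 := by omega
        exact_mod_cast this
      linarith
    · have hex : ∃ t, C.vec P t ≠ 0 := by
        by_contra hcon
        push Not at hcon
        exact hv (funext hcon)
      obtain ⟨t, ht⟩ := hex
      have h1 := hdat.hv t
      rw [hα0, mul_zero, zero_add, ← C.ae_deh] at h1
      have h2 : P.ord (aeval C.u (deh (Φ.F t))) ≠ 0 := by
        rw [h1]
        exact_mod_cast ht
      have h3 : p ∣ deh (Φ.F t) := by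
        by_contra h4
        exact h2 ((hpo _ (deh_F_ne t)).2.2 h4)
      have h5 : deh (Φ.F t) ∣ ∏ t, deh (Φ.F t) :=
        Finset.dvd_prod_of_mem (fun t => deh (Φ.F t)) (Finset.mem_univ t)
      exact (h3.trans h5).mul_left Q
  · exact Or.inl (Or.inr h)
  · right
    exact Set.mem_iUnion.2 ⟨s, hs⟩

end Cv

end Pool.Agent.J4.H19.LC
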