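import Pool.Agent.J4.H19.LP.Tri
import Pool.Agent.J4.H19.LC.Eff

/-!
The prime divisors of the models with trivial canonical class are log places.
-/

set_option autoImplicit false
set_option linter.overlappingInstances false
set_option linter.unusedSectionVars false
set_option maxHeartbeats 400000

open FF MvPolynomial IntermediateField Pool.Agent.W603.LV Pool.Agent.W619.PQ
open Pool.Agent.W619.TW Pool.Agent.W602.GT Pool.Agent.TH122.AB Pool.Agent.TH756.PN
open Pool.Agent.Y169.CH Pool.Agent.W602.Cov.G Pool.Agent.W602.Cov Pool.Agent.TH152.AC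
open Pool.Agent.Y169.TH Pool.Agent.Y172 Pool.Agent.R887

namespace Pool.Agent.J4.H19.LC

namespace Cv

variable {d : ℕ} {Φ : Arr (d + 1)} {K : Type} [Field K] [Algebra ℂ K] {R : ℕ} (C : Cv Φ K R)
  {N r : ℕ} {y : Fin (N + 1) → K} {η : (Fin (d + 1) → Derivation ℂ K K) → K}

/-- a regular form has order zero only at log places -/
theorem lpl_of_zero (hy : NormalModel y) (hn : Algebra.trdeg ℂ K = ((d + 1 : ℕ) : Cardinal))
    (hr : 0 < r) (hη : IsPluri r η) (hreg : ∀ Q, Divisorial (d + 1) Q → OrdGe Q η 0)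
    {P : Place ℂ K} (hP : Divisorial (d + 1) P) (h0 : OrdEq P η 0) : P ∈ C.LPl := by
  classical
  obtain ⟨D0, hD0⟩ := exists_dual C.u_bas
  have hD : ∀ i j, D0 i (C.u j) = if i = j then 1 else 0 := by
    intro i j
    have h1 := congrFun (congrFun hD0 i) j
    rw [Matrix.of_apply, Matrix.one_apply] at h1
    exact h1
  obtain ⟨hfr, ⟨c, hc⟩, hne⟩ := exists_cc hy hn C.u_bas hD
  have hbw0 : bw D0 C.x = 1 := by
    rw [Pool.Agent.W930.CG.bw_one D0 C.x C.hx0]
    change (Matrix.of fun i j => D0 i (C.u j)).det = 1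
    have h1 : (Matrix.of fun i j => D0 i (C.u j)) = (1 : Matrix (Fin (d + 1)) (Fin (d + 1)) K) := by
      ext i j
      rw [Matrix.of_apply, Matrix.one_apply, hD]
    rw [h1, Matrix.det_one]
  have hηD : η D0 ≠ 0 := hne r η hη P _ h0
  have hcP := ((hc P hP _ η hη _).2 hηD).1 h0
  have hrq : (0 : ℚ) < r := by exact_mod_cast hr
  -- the powers of the form
  have hsec : ∀ k : ℕ, ASec (d + 1) {1} (r * k) 0 (fun E => η E ^ k) := by
    intro k
    refine ⟨pluri_pow hη k, fun Q hQ E hE => ?_⟩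
    by_cases h1 : η E = 0
    · rcases Nat.eq_zero_or_pos k with rfl | hk
      · right
        exact ⟨1, by simp, one_ne_zero, by simp [Q.ord_one]⟩
      · left
        change η E ^ k = 0
        rw [h1, zero_pow hk.ne']
    · right
      refine ⟨1, by simp, one_ne_zero, ?_⟩
      have h2 := (hreg Q hQ E hE).resolve_left h1
      have h3 : 0 ≤ Q.ord (η E) := by exact_mod_cast h2
      rw [Nat.cast_zero, zero_mul]
      change 0 ≤ Q.ord (η E ^ k)
      rw [Q.ord_pow]
      positivity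
  have hPi : (PiA C.M C.a Φ.dF).Nonempty := by
    by_contra hcon
    rw [Set.not_nonempty_iff_eq_empty] at hcon
    obtain ⟨M0, hM0⟩ := C.not_psef hcon {1}
    have h1 := hM0 r hr (fun E => η E ^ M0) (asec_sec (by
      have h2 := hsec M0
      refine ⟨h2.1, fun Q hQ E hE => ?_⟩
      refine (h2.2 Q hQ E hE).imp id ?_
      rintro ⟨s, hs, hs0, hle⟩
      refine ⟨s, hs, hs0, ?_⟩
      rw [Finset.mem_singleton] at hs
      subst hs
      rw [Q.ord_one] at hle ⊢
      simpa using hle))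
    exact pow_ne_zero M0 hηD (congrFun h1 D0)
  obtain ⟨α, hα, hdat⟩ := C.exists_vec P
  obtain ⟨A1, hA1, hlow⟩ := C.sec_low {1} hD hdat hα hPi
    (c0 := if C.vec P = 0 then 0 else 1) (fun y' hy' => by
      split_ifs with hv
      · rw [hv]
        simp
      · exact hy'.2 _ (C.adm hdat hv))
  obtain ⟨c0, hc0⟩ : ∃ c0 : ℚ, c0 = if C.vec P = 0 then 0 else 1 := ⟨_, rfl⟩
  rw [← hc0] at hlow
  have hF : ∑ t, P.ord (aeval C.x (Φ.F t)) = (∑ k, (Φ.dF k : ℤ)) * α + ∑ k, (C.vec P k : ℤ) := by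
    rw [Finset.sum_mul, ← Finset.sum_add_distrib]
    exact Finset.sum_congr rfl fun k _ => hdat.hv k
  obtain ⟨X, hX⟩ : ∃ X : ℚ, X = r * (c0 - (d + 2) * α - ∑ k, (C.vec P k : ℚ)) - P.ord (η D0) :=
    ⟨_, rfl⟩
  have hXk : ∀ k : ℕ, (k : ℚ) * X ≤ A1 := by
    intro k
    rcases hlow (r * k) 0 (fun E => η E ^ k) (asec_sec (hsec k)) with h1 | h1
    · exact absurd h1 (pow_ne_zero _ hηD)
    · change _ ≤ ((P.ord (η D0 ^ k * C.Lam (r * k)) : ℤ) : ℚ) at h1
      rw [P.ord_mul (pow_ne_zero _ hηD) (C.Lam_ne _), P.ord_pow, C.ord_Lam, hF] at h1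
      rw [hX]
      push_cast at h1 ⊢
      nlinarith
  have hX0 : X ≤ 0 := by
    by_contra hcon
    push Not at hcon
    obtain ⟨k, hk⟩ := exists_nat_gt (A1 / X)
    rw [div_lt_iff₀ hcon] at hk
    linarith [hXk k]
  have hcle : (c P : ℚ) ≤ (d + 2) * α + ∑ k, (C.vec P k : ℚ) - c0 := by
    rw [hX] at hX0
    have h1 : (r : ℚ) * (c0 - (d + 2) * α - ∑ k, (C.vec P k : ℚ) + c P) ≤ 0 := by linarith
    have h2 : c0 - (d + 2) * α - ∑ k, (C.vec P k : ℚ) + c P ≤ 0 := by
      by_contra h3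
      push Not at h3
      have := mul_pos hrq h3
      linarith
    linarith
  have hb : (fun E : Fin (d + 1) → Derivation ℂ K K => bw E C.x) D0 ≠ 0 := by
    change bw D0 C.x ≠ 0
    rw [hbw0]
    exact one_ne_zero
  have hE := ((hc P hP 1 _ (bw_pluri C.x) (c P)).2 hb).2 (by
    change ((1 : ℕ) : ℚ) * c P + P.ord (bw D0 C.x) = c P
    rw [hbw0, P.ord_one]
    simp)
  obtain ⟨-, E, hE1, hE2, hE3⟩ := hE
  intro α' v' hdat'
  obtain ⟨rfl, rfl⟩ := dat_uniq hdat hdat'
  refine ⟨E, hE1, hE2, ?_⟩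
  have h4 : P.ord (bw E C.x) = c P := by exact_mod_cast hE3
  rw [h4]
  have h5 : (c P : ℚ) ≤ (((((d : ℤ) + 2) * α + ∑ k, (C.vec P k : ℤ) -
      if C.vec P = 0 then 0 else 1 : ℤ)) : ℚ) := by
    rw [hc0] at hcle
    push_cast
    exact hcle
  exact_mod_cast h5

/-- the prime divisors of a model with trivial canonical class are log places -/
theorem tri_LPl (hy : NormalModel y) (hn : Algebra.trdeg ℂ K = ((d + 1 : ℕ) : Cardinal))
    (hr : 0 < r) (hη : Tri y (d + 1) r η) {P : Place ℂ K} (hP : IsPrimeDivisor y P) :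
    P ∈ C.LPl := by
  refine C.lpl_of_zero hy hn hr hη.plu (fun Q hQ => ?_) (hP.divisorial hy hn) (hη.gen P hP)
  by_cases hQp : IsPrimeDivisor y Q
  · exact (hη.gen Q hQp).1
  · intro E hE
    refine (hη.ter Q hQ hQp E hE).imp id fun h1 => le_trans ?_ h1
    norm_num

end Cv

end Pool.Agent.J4.H19.LC
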