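import Pool.Agent.J4.H19.LR.SecTr
import Pool.Agent.J4.H19.LP.Core

/-!
The asymptotic orders of sections, with conditions only at the places which are needed.
-/

set_option autoImplicit false
set_option linter.overlappingInstances false
set_option linter.unusedSectionVars false
set_option maxHeartbeats 1000000

open FF MvPolynomial IntermediateField Pool.Agent.W603.LV Pool.Agent.W619.PQ
open Pool.Agent.W619.TW Pool.Agent.W602.GT Pool.Agent.TH122.AB Pool.Agent.TH756.PN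
open Pool.Agent.Y169.CH Pool.Agent.W602.Cov.G Pool.Agent.W602.Cov Pool.Agent.TH152.AC
open Pool.Agent.Y169.TH

namespace Pool.Agent.J4.H19.LC

namespace Cv

variable {d : ℕ} {Φ : Arr (d + 1)} {K : Type} [Field K] [Algebra ℂ K] {R : ℕ} (C : Cv Φ K R)

/-- the conditions -/
structure CondV {S0 : Finset (Fin (d + 2) → ℕ)} (W : Set (Place ℂ K)) (δ : Place ℂ K → ℚ)
    (T : {v // v ∈ S0} → C.Dir) (a0 : (Fin (d + 2) → ℕ) → ℚ) : Prop where
  unit : ∀ k, (fun i => if i = k then per C.M else 0) ∈ S0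
  hT : ∀ s, (T s).v = s.1
  hW : ∀ P ∈ C.LPl, C.Need T P → P ∈ W
  h0 : ∀ P ∈ W, ∀ α, Dat P Φ.F Φ.dF C.x α 0 → δ P ≤ 0
  h1 : ∀ P ∈ W, δ P ≤ 1
  h2 : ∀ s : {v // v ∈ S0}, ∀ P ∈ W, ∀ (α : ℤ) (v : Fin (d + 2) → ℕ) (g : ℕ),
    Dat P Φ.F Φ.dF C.x α v → v ≠ 0 → 1 ≤ g → (T s).v = (fun k => g * v k) →
    a0 s.1 ≤ g * (1 - δ P)

/-- the polyhedron -/
def PolV (S0 : Finset (Fin (d + 2) → ℕ)) (a0 : (Fin (d + 2) → ℕ) → ℚ) : Set (Fin (d + 2) → ℚ) :=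
  PolB (fun k => (Φ.dF k : ℚ)) (∑ k, (Φ.dF k : ℚ) - ((d + 2 : ℕ) : ℚ))
    (fun s : {v // v ∈ S0} => vq s) fun s => a0 s.1

variable {S0 : Finset (Fin (d + 2) → ℕ)} {W : Set (Place ℂ K)} {δ : Place ℂ K → ℚ}
  {T : {v // v ∈ S0} → C.Dir} {a0 : (Fin (d + 2) → ℕ) → ℚ}

/-- the data of the polyhedron -/
theorem pol_dataV (hunit : ∀ k, (fun i => if i = k then per C.M else 0) ∈ S0) :
    (∀ k, (0 : ℚ) < Φ.dF k) ∧
    ∀ y : Fin (d + 2) → ℚ, (∀ s : {v // v ∈ S0}, 0 ≤ dotL (vq s) y) → ∀ k, 0 ≤ y k := by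
  classical
  have hL : (0 : ℚ) < per C.M := by exact_mod_cast per_pos C.hM
  refine ⟨fun k => by exact_mod_cast Φ.hd k, fun y hy k => ?_⟩
  have h1 := hy ⟨_, hunit k⟩
  rw [dotL_apply, Finset.sum_eq_single k] at h1
  · unfold vq at h1
    dsimp only at h1
    rw [if_pos rfl] at h1
    exact nonneg_of_mul_nonneg_right h1 hL
  · intro i _ hi
    unfold vq
    dsimp only
    rw [if_neg hi, Nat.cast_zero, zero_mul]
  · intro h
    exact absurd (Finset.mem_univ _) h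

/-- the orders of the sections -/
theorem sec_trV (h : C.CondV W δ T a0) (S : Finset K)
    {D : Fin (d + 1) → Derivation ℂ K K} (hD : ∀ i j, D i (C.u j) = if i = j then 1 else 0)
    (Q : Place ℂ K) :
    ∃ c : ℕ, ∀ (m j q : ℕ) (ω : (Fin (d + 1) → Derivation ℂ K K) → K),
      SecB (d + 1) W δ (pw S j) m ω →
      (∑ k, (Φ.dF k : ℚ) - (d + 2)) * m + c * (j + 1) ≤ Φ.E * q →
      ∀ μ : ℤ,
        (∀ a : Fin (d + 1) →₀ ℕ, (∀ s : {v // v ∈ S0}, (m : ℚ) * a0 s.1 - c * (j + 1) ≤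
          (((Φ.ee 0 * (T s).v 0 : ℤ) * (q - ∑ b, (a b : ℤ)) +
            ∑ b, (Φ.ee b.succ * (T s).v b.succ : ℤ) * a b : ℤ) : ℚ)) →
          μ ≤ ∑ b, (a b : ℤ) * Q.ord (C.Y b)) →
        Ge Q (μ - c * (j + 1)) (ω D * C.Lam m / aeval C.x (Φ.G 0) ^ q) := by
  classical
  obtain ⟨K', iF, iA, iK, hTow, hfd, δn, c1, Q0, bb, hQ0, hexp⟩ := C.sec_expV T S hD
  obtain ⟨w, eQ, hwQ⟩ := Pool.Agent.Y172.exists_above (L := K') Q
  obtain ⟨c3, hc3⟩ : ∃ c3 : ℕ, (∀ i, -(c3 : ℤ) ≤ w.ord (bb i)) ∧ w.ord Q0 ≤ c3 := by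
    refine ⟨(∑ i, |w.ord (bb i)|).toNat + (w.ord Q0).natAbs, fun i => ?_, ?_⟩
    · have h1 : |w.ord (bb i)| ≤ ∑ i, |w.ord (bb i)| :=
        Finset.single_le_sum (f := fun i => |w.ord (bb i)|) (fun _ _ => abs_nonneg _)
          (Finset.mem_univ i)
      have h2 := neg_abs_le (w.ord (bb i))
      have h3 := Int.self_le_toNat (∑ i, |w.ord (bb i)|)
      push_cast
      have h4 : (0 : ℤ) ≤ |w.ord Q0| := abs_nonneg _
      linarith
    · push_cast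
      have h4 := le_abs_self (w.ord Q0)
      have h5 : (0 : ℤ) ≤ max (∑ i, |w.ord (bb i)|) 0 := le_max_right _ _
      linarith
  refine ⟨c1 + 2 * c3, fun m j q ω hsec hq μ hA => ?_⟩
  have hc3q : (0 : ℚ) ≤ 2 * c3 * (j + 1) := by positivity
  obtain ⟨RR, hRR1, hRR2⟩ := hexp W h.hW δ (fun s => a0 s.1) h.h0 h.h1 h.h2 m j q ω hsec (by
    push_cast at hq
    linarith)
  have hexpo : ∀ i, ∀ a ∈ (RR i).support, μ ≤ ∑ b, (a b : ℤ) * Q.ord (C.Y b) := by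
    intro i a ha
    refine hA a fun s => ?_
    have h1 := hRR2 i a ha s
    refine le_trans ?_ h1
    push_cast
    linarith
  have htrace : ∀ i, Ge w (eQ * μ) (algebraMap K K' (aeval C.Y (RR i))) := by
    intro i
    refine (Pool.Agent.Y172.over_ge hwQ).2 ?_
    rw [aeval_def, eval₂_eq']
    refine Ge.sum _ _ fun a ha => ?_
    have h2 : Ge Q μ (∏ b, C.Y b ^ a b) := by
      right
      rw [ord_prod' Q Finset.univ _ fun b _ => pow_ne_zero _ (C.Y_ne b)]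
      refine (hexpo i a ha).trans (le_of_eq ?_)
      exact Finset.sum_congr rfl fun b _ => (Q.ord_pow _ _).symm
    have h3 := (Ge.const (P := Q) (coeff a (RR i))).mul h2
    simpa using h3
  obtain ⟨g, hg⟩ : ∃ g, g = ω D * C.Lam m / aeval C.x (Φ.G 0) ^ q := ⟨_, rfl⟩
  rw [← hg] at hRR1
  rw [← hg]
  have h1 : Ge w (eQ * μ - c3) (algebraMap K K' g * Q0 ^ (j + 1)) := by
    rw [hRR1]
    refine Ge.sum _ _ fun i _ => ?_
    have h2 := (htrace i).mul (show Ge w (-(c3 : ℤ)) (bb i) from Or.inr (hc3.1 i))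
    exact h2.mono (by linarith)
  by_cases hg0 : g = 0
  · exact Or.inl hg0
  have hgK : algebraMap K K' g ≠ 0 := by simpa using hg0
  right
  have h2 := h1.resolve_left (mul_ne_zero hgK (pow_ne_zero _ hQ0))
  rw [w.ord_mul hgK (pow_ne_zero _ hQ0), w.ord_pow, hwQ.2] at h2
  have h3 : ((j + 1 : ℕ) : ℤ) * w.ord Q0 ≤ (j + 1 : ℕ) * c3 :=
    mul_le_mul_of_nonneg_left hc3.2 (by positivity)
  have h4 : (1 : ℤ) ≤ eQ := by exact_mod_cast hwQ.1
  have h5 : (eQ : ℤ) * (μ - Q.ord g) ≤ 2 * c3 * (j + 1) := by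
    push_cast at h2 h3
    have h6 : (0 : ℤ) ≤ (j : ℤ) * c3 := by positivity
    nlinarith
  have h6 : μ - Q.ord g ≤ 2 * c3 * (j + 1) := by
    by_cases h7 : μ - Q.ord g ≤ 0
    · exact h7.trans (by positivity)
    · push Not at h7
      nlinarith
  have h7 : (0 : ℤ) ≤ c1 * (j + 1) := by positivity
  push_cast
  linarith

/-- **The lower bound.** -/
theorem sec_lowV (h : C.CondV W δ T a0) (S : Finset K)
    {D : Fin (d + 1) → Derivation ℂ K K} (hD : ∀ i j, D i (C.u j) = if i = j then 1 else 0)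
    {Q : Place ℂ K} {α : ℤ} {v : Fin (d + 2) → ℕ} (hdat : Dat Q Φ.F Φ.dF C.x α v) (hα : α ≤ 0)
    {c0 : ℚ} (hc0 : ∀ y ∈ PolV (Φ := Φ) S0 a0, c0 ≤ ∑ k, (v k : ℚ) * y k) :
    ∃ A1 : ℚ, 0 ≤ A1 ∧ ∀ (m j : ℕ) (ω : (Fin (d + 1) → Derivation ℂ K K) → K),
      SecB (d + 1) W δ (pw S j) m ω → ω D = 0 ∨
        c0 * m + α * (∑ k, (Φ.dF k : ℚ) - (d + 2)) * m - A1 * (j + 1) ≤
          (Q.ord (ω D * C.Lam m) : ℚ) := by
  classical
  obtain ⟨c1, hC⟩ := C.sec_trV h S hD Q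
  obtain ⟨κ, hκ⟩ : ∃ κ : ℚ, κ = ∑ k, (Φ.dF k : ℚ) - (d + 2) := ⟨_, rfl⟩
  have hκ0 : 0 ≤ κ := by
    rw [hκ]
    linarith [kappa_nonneg Φ]
  have hκq : (∑ k, (Φ.dF k : ℚ) - ((d + 2 : ℕ) : ℚ)) = κ := by
    rw [hκ]
    push_cast
    ring
  unfold PolV at hc0
  rw [hκq] at hc0
  rw [← hκ]
  rw [← hκ] at hC
  obtain ⟨hdq, hnn⟩ := C.pol_dataV h.unit
  obtain ⟨A0, hA0, hmin⟩ := lp_minB (u := fun k => (v k : ℚ)) (c0 := c0) hdq hnn (fun y hy => by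
    rw [dotL_apply]
    exact hc0 y hy)
  have hα' : (0 : ℚ) ≤ -α := by
    have : (0 : ℤ) ≤ -α := by omega
    exact_mod_cast this
  refine ⟨A0 * (2 * c1 + Φ.E) + c1 + (-α) * (c1 + Φ.E) + 1, by positivity, fun m j ω hω => ?_⟩
  by_cases hω0 : ω D = 0
  · exact Or.inl hω0
  right
  obtain ⟨X, hX⟩ : ∃ X : ℚ, X = κ * m + c1 * (j + 1) := ⟨_, rfl⟩
  have hX0 : 0 ≤ X := by
    rw [hX]
    positivity
  obtain ⟨q, hq1, hq2⟩ := exists_q hX0 Φ
  obtain ⟨μ0, hμ0⟩ : ∃ μ0 : ℤ,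
    μ0 = ⌈c0 * m - A0 * (c1 * (j + 1) + (c1 * (j + 1) + Φ.E))⌉ := ⟨_, rfl⟩
  obtain ⟨μ, hμ⟩ : ∃ μ : ℤ, μ = μ0 - q * (Φ.ee 0 * v 0) := ⟨_, rfl⟩
  have h1 := hC m j q ω hω (by rw [← hX]; exact hq1) μ (fun a ha => ?_)
  · have hG0 : aeval C.x (Φ.G 0) ^ q ≠ 0 := pow_ne_zero _ (C.G_ne 0)
    have hnum : ω D * C.Lam m ≠ 0 := mul_ne_zero hω0 (C.Lam_ne m)
    have h2 := h1.resolve_left (div_ne_zero hnum hG0)
    rw [Q.ord_div hnum hG0, Q.ord_pow, C.ord_G hdat, hμ] at h2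
    have h3 : μ0 - c1 * (j + 1) + q * (Φ.E * α) ≤ Q.ord (ω D * C.Lam m) := by
      have h4 : ((q : ℕ) : ℤ) * (Φ.E * α + Φ.ee 0 * v 0) = q * (Φ.E * α) + q * (Φ.ee 0 * v 0) := by
        ring
      rw [h4] at h2
      linarith
    have h4 : c0 * m - A0 * (c1 * (j + 1) + (c1 * (j + 1) + Φ.E)) ≤ (μ0 : ℚ) := by
      rw [hμ0]
      exact Int.le_ceil _
    have h5 : (α : ℚ) * (κ * m + c1 * (j + 1) + Φ.E) ≤ α * (Φ.E * q) := by
      rw [hX] at hq2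
      nlinarith
    have h6 : ((μ0 - c1 * (j + 1) + q * (Φ.E * α) : ℤ) : ℚ) ≤ (Q.ord (ω D * C.Lam m) : ℚ) := by
      exact_mod_cast h3
    push_cast at h6
    have h8 : (0 : ℚ) ≤ j := by positivity
    have h9 : (0 : ℚ) ≤ A0 * Φ.E * j := by positivity
    have h10 : (0 : ℚ) ≤ (-α) * (Φ.E * j) := by positivity
    nlinarith
  · have h2 := hmin (fun k => (yv Φ q a k : ℚ)) m (c1 * (j + 1)) (c1 * (j + 1) + Φ.E)
      (by positivity) (by positivity) (by positivity) (fun s => by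
        change _ ≤ dotL (fun k => (s.1 k : ℚ)) _
        rw [dotq_yv, dot_yv]
        have h3 := ha s
        rw [h.hT] at h3
        exact h3) (by
        rw [dotq_yv, deg_yv, abs_le]
        rw [hX] at hq1 hq2
        push_cast
        have h5 : (0 : ℚ) ≤ c1 * (j + 1) := by positivity
        have h6 : (0 : ℚ) ≤ Φ.E := by positivity
        constructor <;> linarith)
    rw [dotq_yv] at h2
    have h3 : μ0 ≤ ∑ k, (v k : ℤ) * yv Φ q a k := by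
      rw [hμ0, Int.ceil_le]
      exact h2
    have h4 : ∑ b, (a b : ℤ) * Q.ord (C.Y b) = ∑ k, (v k : ℤ) * yv Φ q a k -
        q * (Φ.ee 0 * v 0) := by
      rw [dot_yv]
      have h5 : ∀ b, (a b : ℤ) * Q.ord (C.Y b) = (Φ.ee b.succ * v b.succ : ℤ) * a b -
          (a b : ℤ) * (Φ.ee 0 * v 0) := by
        intro b
        rw [C.ord_Y hdat]
        ring
      rw [Finset.sum_congr rfl fun b _ => h5 b, Finset.sum_sub_distrib, ← Finset.sum_mul]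
      ring
    rw [h4, hμ]
    linarith

/-- **No sections.** -/
theorem sec_zeroV (h : C.CondV W δ T a0) (S : Finset K)
    {D : Fin (d + 1) → Derivation ℂ K K} (hD : ∀ i j, D i (C.u j) = if i = j then 1 else 0)
    (hemp : PolV (Φ := Φ) S0 a0 = ∅) :
    ∃ A0 : ℚ, 0 ≤ A0 ∧ ∀ (m j : ℕ) (ω : (Fin (d + 1) → Derivation ℂ K K) → K),
      SecB (d + 1) W δ (pw S j) m ω → A0 * (j + 1) < m → ω D = 0 := by
  classical
  obtain ⟨Q, hQ⟩ := C.exists_div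
  obtain ⟨c1, hC⟩ := C.sec_trV h S hD Q
  obtain ⟨κ, hκ⟩ : ∃ κ : ℚ, κ = ∑ k, (Φ.dF k : ℚ) - (d + 2) := ⟨_, rfl⟩
  have hκ0 : 0 ≤ κ := by
    rw [hκ]
    linarith [kappa_nonneg Φ]
  have hκq : (∑ k, (Φ.dF k : ℚ) - ((d + 2 : ℕ) : ℚ)) = κ := by
    rw [hκ]
    push_cast
    ring
  unfold PolV at hemp
  rw [hκq] at hemp
  rw [← hκ] at hC
  obtain ⟨hdq, hnn⟩ := C.pol_dataV h.unit
  obtain ⟨A0, hA0, hmin⟩ := lp_minB (u := 0) (c0 := 1) hdq hnn (fun y hy => by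
    rw [hemp] at hy
    exact absurd hy (Set.notMem_empty _))
  refine ⟨A0 * (2 * c1 + Φ.E), by positivity, fun m j ω hω hm => ?_⟩
  obtain ⟨X, hX⟩ : ∃ X : ℚ, X = κ * m + c1 * (j + 1) := ⟨_, rfl⟩
  have hX0 : 0 ≤ X := by
    rw [hX]
    positivity
  obtain ⟨q, hq1, hq2⟩ := exists_q hX0 Φ
  by_contra hω0
  have hne : ω D * C.Lam m / aeval C.x (Φ.G 0) ^ q ≠ 0 :=
    div_ne_zero (mul_ne_zero hω0 (C.Lam_ne m)) (pow_ne_zero _ (C.G_ne 0))
  obtain ⟨μ, hμ⟩ : ∃ μ : ℤ, μ = Q.ord (ω D * C.Lam m / aeval C.x (Φ.G 0) ^ q) + c1 * (j + 1) + 1 :=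
    ⟨_, rfl⟩
  have h1 := (hC m j q ω hω (by rw [← hX]; exact hq1) μ (fun a ha => ?_)).resolve_left hne
  · omega
  · exfalso
    have h2 := hmin (fun k => (yv Φ q a k : ℚ)) m (c1 * (j + 1)) (c1 * (j + 1) + Φ.E)
      (by positivity) (by positivity) (by positivity) (fun s => by
        change _ ≤ dotL (fun k => (s.1 k : ℚ)) _
        rw [dotq_yv, dot_yv]
        have h3 := ha s
        rw [h.hT] at h3
        exact h3) (by
        rw [dotq_yv, deg_yv, abs_le]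
        rw [hX] at hq1 hq2
        push_cast
        have h5 : (0 : ℚ) ≤ c1 * (j + 1) := by positivity
        have h6 : (0 : ℚ) ≤ Φ.E := by positivity
        constructor <;> linarith)
    have h3 : dotL (0 : Fin (d + 2) → ℚ) (fun k => (yv Φ q a k : ℚ)) = 0 := by
      rw [dotL_apply]
      simp
    rw [h3] at h2
    have h4 : (0 : ℚ) ≤ A0 * Φ.E * j := by positivity
    nlinarith

/-- **The sections which compute the asymptotic orders.** -/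
theorem zarV (h : C.CondV W δ T a0) (ha0 : ∀ v, 0 ≤ a0 v) (hne : (PolV (Φ := Φ) S0 a0).Nonempty)
    {D0 : Fin (d + 1) → Derivation ℂ K K} (hD : ∀ i j, D0 i (C.u j) = if i = j then 1 else 0) :
    ∃ T' : ℕ, 0 < T' ∧ ∃ (N : ℕ) (w : Fin (N + 1) → Fin (d + 2) → ℤ),
      (∀ i, (∀ k, 0 ≤ w i k) ∧
        ∑ k, (Φ.dF k : ℤ) * w i k = (∑ k, (Φ.dF k : ℤ) - (d + 2)) * T' ∧
        (∀ v ∈ S0, (T' : ℚ) * a0 v ≤ ∑ k, (v k : ℚ) * w i k) ∧ C.mon T' (w i) D0 ≠ 0) ∧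
      ∀ Q : Place ℂ K, ∃ i, ∀ S : Finset K, ∃ A1 : ℚ, 0 ≤ A1 ∧
        ∀ (m j : ℕ) (ω : (Fin (d + 1) → Derivation ℂ K K) → K), ASecB (d + 1) W δ S m j ω →
        ω D0 = 0 ∨ (m : ℚ) * Q.ord (C.mon T' (w i) D0) ≤ T' * Q.ord (ω D0) + A1 * (j + 1) := by
  classical
  obtain ⟨hd0, hv0⟩ := C.pol_dataV h.unit
  obtain ⟨V, hV⟩ : ∃ V : Set (Fin (d + 2) → ℚ), V = {p | VertB (fun k => (Φ.dF k : ℚ))
    (∑ k, (Φ.dF k : ℚ) - ((d + 2 : ℕ) : ℚ)) (fun s : {v // v ∈ S0} => vq s)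
      (fun s => a0 s.1) p} := ⟨_, rfl⟩
  have hVfin : V.Finite := by
    rw [hV]
    exact vertB_finite
  have hVne : V.Nonempty := by
    obtain ⟨p, hp, -⟩ := exists_vertB_min hd0 hv0 0 hne
    exact ⟨p, by rw [hV]; exact hp⟩
  -- an enumeration of the vertices
  obtain ⟨N, p, hp⟩ : ∃ (N : ℕ) (p : Fin (N + 1) → Fin (d + 2) → ℚ), Set.range p = V := by
    have hcard : hVfin.toFinset.card ≠ 0 := by
      rw [Finset.card_ne_zero]
      exact (Set.Finite.toFinset_nonempty _).2 hVne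
    obtain ⟨N, hN⟩ := Nat.exists_eq_succ_of_ne_zero hcard
    let e := (hVfin.toFinset.equivFinOfCardEq hN).symm
    refine ⟨N, fun i => (e i : Fin (d + 2) → ℚ), ?_⟩
    ext x
    constructor
    · rintro ⟨i, rfl⟩
      exact hVfin.mem_toFinset.1 (e i).2
    · intro hx
      obtain ⟨i, hi⟩ := e.surjective ⟨x, hVfin.mem_toFinset.2 hx⟩
      exact ⟨i, congrArg Subtype.val hi⟩
  have hpP : ∀ i, p i ∈ PolV (Φ := Φ) S0 a0 := fun i => by
    have h1 : p i ∈ V := by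
      rw [← hp]
      exact ⟨i, rfl⟩
    rw [hV] at h1
    exact h1.1
  have hp1 : ∀ i, ∑ k, (Φ.dF k : ℚ) * p i k = ∑ k, (Φ.dF k : ℚ) - ((d + 2 : ℕ) : ℚ) := by
    intro i
    have h1 := (hpP i).1
    rwa [dotL_apply] at h1
  have hp2 : ∀ i, ∀ v ∈ S0, a0 v ≤ ∑ k, (v k : ℚ) * p i k := by
    intro i v hv
    have h1 := (hpP i).2 ⟨v, hv⟩
    rwa [dotL_apply] at h1
  have hp0 : ∀ i k, 0 ≤ p i k := by
    intro i k
    refine hv0 (p i) (fun s => ?_) k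
    rw [dotL_apply]
    exact (ha0 s.1).trans (hp2 i s.1 s.2)
  obtain ⟨T', hTpos, hden⟩ := exists_den fun x : Fin (N + 1) × Fin (d + 2) => p x.1 x.2
  choose w' hw' using hden
  obtain ⟨w, hwdef⟩ : ∃ w : Fin (N + 1) → Fin (d + 2) → ℤ, w = fun i k => w' (i, k) := ⟨_, rfl⟩
  have hw : ∀ i k, (w i k : ℚ) = T' * p i k := by
    intro i k
    rw [hwdef]
    exact (hw' (i, k)).symm
  have hbw0 : bw D0 C.x = 1 := by
    rw [Pool.Agent.W930.CG.bw_one D0 C.x C.hx0]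
    change (Matrix.of fun i j => D0 i (C.u j)).det = 1
    have h1 : (Matrix.of fun i j => D0 i (C.u j)) = (1 : Matrix (Fin (d + 1)) (Fin (d + 1)) K) := by
      ext i j
      rw [Matrix.of_apply, Matrix.one_apply, hD]
    rw [h1, Matrix.det_one]
  have hm0 : ∀ i, C.mon T' (w i) D0 ≠ 0 := by
    intro i
    unfold mon
    rw [hbw0, one_pow, one_mul]
    exact C.Ex_ne T' (w i)
  have hTq : (0 : ℚ) < T' := by exact_mod_cast hTpos
  have hpB : ∀ i, p i ∈ PiB C.M C.a Φ.dF (fun _ => 1) 0 := by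
    intro i
    refine ⟨?_, fun v _ => ?_⟩
    · rw [hp1, add_zero]
    · rw [sub_self]
      exact Finset.sum_nonneg fun k _ => mul_nonneg (by positivity) (hp0 i k)
  refine ⟨T', hTpos, N, w, fun i => ⟨fun k => ?_, ?_, fun v hv => ?_, hm0 i⟩, fun Q => ?_⟩
  · have h1 : (0 : ℚ) ≤ w i k := by
      rw [hw]
      exact mul_nonneg hTq.le (hp0 i k)
    exact_mod_cast h1
  · have h1 : ((∑ k, (Φ.dF k : ℤ) * w i k : ℤ) : ℚ) =
        (((∑ k, (Φ.dF k : ℤ) - (d + 2)) * T' : ℤ) : ℚ) := by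
      push_cast
      have h2 := hp1 i
      push_cast at h2
      rw [← h2, Finset.sum_mul]
      refine Finset.sum_congr rfl fun k _ => ?_
      rw [hw]
      ring
    exact_mod_cast h1
  · have h1 := mul_le_mul_of_nonneg_left (hp2 i v hv) hTq.le
    refine h1.trans (le_of_eq ?_)
    rw [Finset.mul_sum]
    refine Finset.sum_congr rfl fun k _ => ?_
    rw [hw]
    ring
  obtain ⟨α, v, hα, hdat⟩ := C.exists_dat Q
  obtain ⟨p0, hp0V, hp0min⟩ := exists_vertB_min hd0 hv0 (fun k => (v k : ℚ)) hne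
  obtain ⟨i, rfl⟩ : ∃ i, p i = p0 := by
    have h1 : p0 ∈ V := by
      rw [hV]
      exact hp0V
    rw [← hp] at h1
    exact h1
  refine ⟨i, fun S => ?_⟩
  obtain ⟨A1, hA1, hlow⟩ := C.sec_lowV h S hD hdat hα
    (c0 := ∑ k, (v k : ℚ) * p i k)
    (fun y' hy' => by
      have h1 := hp0min y' hy'
      rwa [dotL_apply, dotL_apply] at h1)
  refine ⟨T' * A1, by positivity, fun m j ω hω => ?_⟩
  rcases hlow m j ω (asecB_sec hω) with h1 | h1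
  · exact Or.inl h1
  by_cases hω0 : ω D0 = 0
  · exact Or.inl hω0
  right
  have h2 := C.mon_ordB hdat hbw0 (hpB i) (hw i)
  rw [Q.ord_mul (hm0 i) (C.Lam_ne T'), C.ord_Lam] at h2
  rw [Q.ord_mul hω0 (C.Lam_ne m), C.ord_Lam] at h1
  push_cast at h1 h2
  have h3 : (0 : ℚ) ≤ T' := by positivity
  have h4 := mul_le_mul_of_nonneg_left h1 h3
  have h5 : (m : ℚ) * ((Q.ord (C.mon T' (w i) D0) : ℚ) +
      T' * ∑ t, (Q.ord (aeval C.x (Φ.F t)) : ℚ)) =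
      m * (T' * (∑ k, (v k : ℚ) * p i k + α * (∑ k, (Φ.dF k : ℚ) - (d + 2) + 0))) := by
    rw [h2]
  nlinarith

end Cv

end Pool.Agent.J4.H19.LC
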