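import Pool.Agent.J4.H19.LR.Nef

/-!
Uniform divisors on models with trivial canonical class, in terms of the given coordinates.
-/

set_option autoImplicit false
set_option linter.overlappingInstances false
set_option linter.unusedSectionVars false
set_option maxHeartbeats 400000

open FF MvPolynomial IntermediateField Pool.Agent.W603.LV Pool.Agent.W619.PQ
open Pool.Agent.W602.GT Pool.Agent.TH122.AB
open Pool.Agent.Y169.CH Pool.Agent.W602.Cov.G Pool.Agent.W602.Cov Pool.Agent.TH152.AC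
open Pool.Agent.Y169.TH Pool.Agent.Y172 Pool.Agent.R887

namespace Pool.Agent.J4.H19.LC

variable {d R : ℕ} {K : Type} [Field K] [Algebra ℂ K] {N : ℕ} {y : Fin (N + 1) → K}

/-- `L` is a uniform divisor -/
structure UnX (F : Fin (d + 2) → MvPolynomial (Fin (d + 2)) ℂ) (dF : Fin (d + 2) → ℕ)
    (x : Fin (d + 2) → K) (y : Fin (N + 1) → K) (L : Place ℂ K → ℚ) : Prop where
  fin : {P | IsPrimeDivisor y P ∧ L P ≠ 0}.Finite
  u1 : ∀ P P', IsPrimeDivisor y P → IsPrimeDivisor y P' →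
    (∀ k, mu F dF x P k = mu F dF x P' k) → L P = L P'
  u0 : ∀ P, IsPrimeDivisor y P → (∀ k, mu F dF x P k = 0) → L P = 0

/-- the comparison of the conditions -/
theorem unc_of_unx {F : Fin (d + 2) → MvPolynomial (Fin (d + 2)) ℂ} {dF : Fin (d + 2) → ℕ}
    (hh : ∀ k, (F k).IsHomogeneous (dF k))
    {x : Fin (d + 2) → K} {Φ : Arr (d + 1)} (C : Cv Φ K R)
    {ρ : K}
    (h1 : ∀ (P : Place ℂ K) (α : ℤ) (v : Fin (d + 2) → ℕ), Dat P F dF x α v →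
        Dat P Φ.F Φ.dF C.x (α - P.ord ρ) v)
    (hF : ∀ k, aeval x (F k) ≠ 0) (hx : ∀ l, x l ≠ 0)
    (hy : NormalModel y) (hn : Algebra.trdeg ℂ K = ((d + 1 : ℕ) : Cardinal))
    {r : ℕ} (hr : 0 < r) {η : (Fin (d + 1) → Derivation ℂ K K) → K} (hη : Tri y (d + 1) r η)
    {s : ℕ} {L : Fin s → Place ℂ K → ℚ} (h : ∀ i, UnX F dF x y (L i)) : C.UnC y L := by
  classical
  have hvec : ∀ P : Place ℂ K, C.vec P = fun k => (mu F dF x P k).toNat := fun P =>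
    C.vec_eq (h1 P _ _ (exists_datx hh hx hF P))
  have hvk : ∀ (P : Place ℂ K) k, ((C.vec P k : ℕ) : ℤ) = mu F dF x P k := by
    intro P k
    rw [hvec]
    exact Int.toNat_of_nonneg (mu_nonneg hh hx hF P k)
  refine ⟨fun i => (h i).fin, fun i P P' hP hP' _ _ hv => (h i).u1 P P' hP hP' fun k => ?_,
    fun i P hP _ hv => (h i).u0 P hP fun k => ?_, fun i P hP hPL => ?_⟩
  · rw [← hvk, ← hvk, hv]
  · rw [← hvk, hv]
    rfl
  · exact absurd (C.tri_LPl hy hn hr hη hP) hPL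

section

variable {x : Fin (d + 2) → K} (hx0 : x 0 ≠ 0)
    (hbas : IsTranscendenceBasis ℂ fun b : Fin (d + 1) => x b.succ / x 0)
    {F : Fin (d + 2) → MvPolynomial (Fin (d + 2)) ℂ} {dF : Fin (d + 2) → ℕ} (hd : ∀ k, 0 < dF k)
    (hh : ∀ k, (F k).IsHomogeneous (dF k)) (hF0 : ∀ k, F k ≠ 0) (hN : Noc F) (hL : Lca F)
    {z : Fin R → K} {M : Fin R → ℕ} (hM : ∀ j, 0 < M j) {a : Fin R → Fin (d + 2) → ℕ}
    (hz : ∀ j, z j ^ M j = ∏ k, (aeval x (F k) / x 0 ^ dF k) ^ a j k)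
    (hdiv : ∀ j, M j ∣ ∑ k, a j k * dF k)
    (hgen : IntermediateField.adjoin ℂ
      (Set.range (fun b : Fin (d + 1) => x b.succ / x 0) ∪ Set.range z) = ⊤)

include hx0 hbas hd hh hF0 hN hL hM hz hdiv hgen

/-- **Cox rings.** -/
theorem main_cox (hy : NormalModel y) {r : ℕ} (hr : 0 < r)
    {η : (Fin (d + 1) → Derivation ℂ K K) → K} (hη : Tri y (d + 1) r η)
    {s : ℕ} {L : Fin s → Place ℂ K → ℚ} (h : ∀ i, UnX F dF x y (L i)) :
    ∃ (t : ℕ) (e : Fin t → Fin s → ℕ) (σ : Fin t → K), (∀ j, FSec y L (e j) (σ j)) ∧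
      ∀ m f, FSec y L m f → f ∈ Submodule.span ℂ {g : K | ∃ c : Fin t → ℕ, ∑ j, c j • e j = m ∧
        g = ∏ j, σ j ^ c j} := by
  obtain ⟨Φ, rfl, C, rfl, rfl, ρ, -, h1, -, hF, hx⟩ :=
    exists_cvx hx0 hbas hd hh hF0 hN hL hM hz hdiv hgen
  have hn : Algebra.trdeg ℂ K = ((d + 1 : ℕ) : Cardinal) := by
    rw [← C.u_bas.cardinalMk_eq_trdeg, Cardinal.mk_fin]
  exact C.cox_mod hy hn hr hη (unc_of_unx hh C h1 hF hx hy hn hr hη h)

/-- **Zariski decompositions.** -/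
theorem main_zarT (hy : NormalModel y) {r : ℕ} (hr : 0 < r)
    {η : (Fin (d + 1) → Derivation ℂ K K) → K} (hη : Tri y (d + 1) r η)
    {L : Place ℂ K → ℚ} (h : UnX F dF x y L)
    (hps : ∃ i, y i ≠ 0 ∧ ∀ M : ℕ, 1 ≤ M → ∃ j : ℕ, 1 ≤ j ∧ ∃ f : K, f ≠ 0 ∧
      TSec y i L (j * M) j f) :
    ∃ T : ℕ, 0 < T ∧ ∃ (N' : ℕ) (s : Fin (N' + 1) → K), (∀ i, s i ≠ 0 ∧
      ∀ P, IsPrimeDivisor y P → -(T * L P) ≤ ((P.ord (s i) : ℤ) : ℚ)) ∧
      ∀ Q : Place ℂ K, ∃ i, ∀ i0, y i0 ≠ 0 → ∃ C1 : ℕ, ∀ (m j : ℕ) (f : K), f ≠ 0 →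
        TSec y i0 L m j f → (m : ℤ) * Q.ord (s i) ≤ T * Q.ord f + C1 * (j + 1) := by
  obtain ⟨Φ, rfl, C, rfl, rfl, ρ, -, h1, -, hF, hx⟩ :=
    exists_cvx hx0 hbas hd hh hF0 hN hL hM hz hdiv hgen
  have hn : Algebra.trdeg ℂ K = ((d + 1 : ℕ) : Cardinal) := by
    rw [← C.u_bas.cardinalMk_eq_trdeg, Cardinal.mk_fin]
  exact C.zar_tri hy hn hr hη (unc_of_unx hh C h1 hF hx hy hn hr hη fun _ => h) hps

/-- **Uniform nef divisors are semiample.** -/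
theorem main_nefT (hy : NormalModel y) {r : ℕ} (hr : 0 < r)
    {η : (Fin (d + 1) → Derivation ℂ K K) → K} (hη : Tri y (d + 1) r η)
    {L : Place ℂ K → ℚ} (h : UnX F dF x y L) (hnef : NefF y (d + 1) L) :
    ∃ T : ℕ, 0 < T ∧ ∀ Q : Place ℂ K, Divisorial (d + 1) Q → ∃ f : K, f ≠ 0 ∧
      (∀ P, IsPrimeDivisor y P → -(T * L P) ≤ (P.ord f : ℚ)) ∧
      ∀ P, IsPrimeDivisor y P → Through y P Q → (P.ord f : ℚ) = -(T * L P) := by
  obtain ⟨Φ, rfl, C, rfl, rfl, ρ, -, h1, -, hF, hx⟩ :=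
    exists_cvx hx0 hbas hd hh hF0 hN hL hM hz hdiv hgen
  have hn : Algebra.trdeg ℂ K = ((d + 1 : ℕ) : Cardinal) := by
    rw [← C.u_bas.cardinalMk_eq_trdeg, Cardinal.mk_fin]
  exact C.nef_tri hy hn hr hη (unc_of_unx hh C h1 hF hx hy hn hr hη fun _ => h) hnef

end

end Pool.Agent.J4.H19.LC
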