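import Pool.Agent.J4.H19.LR.Low
import Pool.Agent.J4.H19.LR.Cox
import Pool.Agent.J4.H19.LR.Log

/-!
Uniform divisors on models with trivial canonical class: Zariski decompositions, and nef divisors.
-/

set_option autoImplicit false
set_option linter.overlappingInstances false
set_option linter.unusedSectionVars false
set_option maxHeartbeats 400000

open FF MvPolynomial IntermediateField Pool.Agent.W603.LV Pool.Agent.W619.PQ
open Pool.Agent.W619.TW Pool.Agent.W602.GT Pool.Agent.TH122.AB Pool.Agent.TH756.PN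
open Pool.Agent.Y169.CH Pool.Agent.W602.Cov.G Pool.Agent.W602.Cov Pool.Agent.TH152.AC
open Pool.Agent.Y169.TH Pool.Agent.Y172 Pool.Agent.R887

namespace Pool.Agent.J4.H19.LC

section

variable {K : Type} [Field K] [Algebra ℂ K] {N : ℕ}

/-- `f` is a section of `m L + j H` -/
def TSec (y : Fin (N + 1) → K) (i : Fin (N + 1)) (L : Place ℂ K → ℚ) (m j : ℕ) (f : K) : Prop :=
  ∀ P l, IsPrimeDivisor y P → Centred y l P → -(m * L P) - j * P.ord (y i / y l) ≤ (P.ord f : ℚ)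

variable {y : Fin (N + 1) → K} {L : Place ℂ K → ℚ}

/-- the order of the sections along other divisors is bounded from below -/
theorem tsec_bound (hy : NormalModel y) (hfin : {P | IsPrimeDivisor y P ∧ L P ≠ 0}.Finite)
    {B : ℕ} (hB : ∀ P, IsPrimeDivisor y P → L P ≤ B) {i : Fin (N + 1)} (hi : y i ≠ 0)
    (Q : Place ℂ K) :
    ∃ c : ℕ, ∀ l, Centred y l Q → ∀ (m j : ℕ) (f : K), f ≠ 0 → TSec y i L m j f →
      -((c * m : ℕ) : ℤ) - j * Q.ord (y i / y l) ≤ Q.ord f := by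
  classical
  obtain ⟨l0, hl0⟩ := exists_centred hy Q
  obtain ⟨S, hS⟩ : ∃ S : Set (Place ℂ K), S =
    {P | (IsPrimeDivisor y P ∧ L P ≠ 0) ∧ Centred y l0 P} := ⟨_, rfl⟩
  have hSf : S.Finite := by
    refine hfin.subset ?_
    rw [hS]
    rintro P ⟨h1, -⟩
    exact h1
  obtain ⟨g, hg, hg0, hgP⟩ := exists_high (y := y) (j := l0) hSf (fun P hP => by
    rw [hS] at hP
    exact hP.2) (fun P hP => by
    rw [hS] at hP
    exact hP.1.1) fun _ => B
  have hgl : g ∈ localRing y Q := chart_localRing hl0 hg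
  have hg1 : 0 ≤ Q.ord g := (Q.reg_iff hg0).1 (localRing_reg hgl)
  refine ⟨(Q.ord g).toNat, fun l hl m j f hf0 hf => ?_⟩
  have hyl : y i / y l ≠ 0 := div_ne_zero hi hl.1
  have hn0 : f * g ^ m * (y i / y l) ^ j ≠ 0 :=
    mul_ne_zero (mul_ne_zero hf0 (pow_ne_zero _ hg0)) (pow_ne_zero _ hyl)
  have hord : ∀ P : Place ℂ K, P.ord (f * g ^ m * (y i / y l) ^ j) =
      P.ord f + m * P.ord g + j * P.ord (y i / y l) := by
    intro P
    rw [P.ord_mul (mul_ne_zero hf0 (pow_ne_zero _ hg0)) (pow_ne_zero _ hyl),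
      P.ord_mul hf0 (pow_ne_zero _ hg0), P.ord_pow, P.ord_pow]
  have h1 : f * g ^ m * (y i / y l) ^ j ∈ localRing y Q := by
    refine mem_localRing_of_reg hy fun P hP hPt => ?_
    right
    rw [hord]
    have h2 := hf P l hP (hPt.centred hl)
    have h4 : (m : ℚ) * L P ≤ m * P.ord g := by
      refine mul_le_mul_of_nonneg_left ?_ (by positivity)
      by_cases h0 : L P = 0
      · rw [h0]
        have h5 := (P.reg_iff hg0).1 (hPt g hgl)
        exact_mod_cast h5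
      · have h5 : P ∈ S := by
          rw [hS]
          exact ⟨⟨hP, h0⟩, hPt.centred hl0⟩
        have h6 := hgP P h5
        have h7 : ((B : ℕ) : ℚ) ≤ P.ord g := by exact_mod_cast h6
        exact (hB P hP).trans h7
    have h5 : (0 : ℚ) ≤ ((P.ord f + m * P.ord g + j * P.ord (y i / y l) : ℤ) : ℚ) := by
      push_cast
      linarith
    exact_mod_cast h5
  have h2 := (Q.reg_iff hn0).1 (localRing_reg h1)
  rw [hord] at h2
  have h3 : (((Q.ord g).toNat * m : ℕ) : ℤ) = m * Q.ord g := by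
    push_cast
    rw [Int.toNat_of_nonneg hg1]
    ring
  rw [h3]
  linarith

/-- **Base points.** -/
theorem semi_of_zar (hy : NormalModel y) {n : ℕ} (hL : NefF y n L) {Q : Place ℂ K}
    (hQ : Divisorial n Q) {T : ℕ} {f0 : K} (hf0 : f0 ≠ 0)
    (hreg : ∀ P, IsPrimeDivisor y P → -(T * L P) ≤ (P.ord f0 : ℚ))
    (hlow : ∀ i0, y i0 ≠ 0 → ∃ C1 : ℕ, ∀ (m j : ℕ) (f : K), f ≠ 0 → TSec y i0 L m j f →
      (m : ℤ) * Q.ord f0 ≤ T * Q.ord f + C1 * (j + 1)) :
    ∀ P, IsPrimeDivisor y P → Through y P Q → (P.ord f0 : ℚ) = -(T * L P) := by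
  classical
  obtain ⟨k, hk, hle⟩ := exists_leq hy hL
  obtain ⟨g, hg0, hg⟩ := hle Q hQ
  obtain ⟨i, hi⟩ := hy.ne
  obtain ⟨C1, hC1⟩ := hlow i hi
  obtain ⟨l, hl⟩ := exists_centred hy Q
  have hyl : y i / y l ≠ 0 := div_ne_zero hi hl.1
  have hkq : (0 : ℚ) < k := by exact_mod_cast hk
  obtain ⟨q, hq⟩ : ∃ q : ℕ, q = 2 * C1 * k + 1 := ⟨_, rfl⟩
  obtain ⟨m, hm, hgen⟩ := hL i hi q (by omega)
  obtain ⟨f, hf, hf1, hf2⟩ := hgen Q hQ
  -- the quotient
  obtain ⟨w, hw⟩ : ∃ w, w = f0 ^ k * g ^ T := ⟨_, rfl⟩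
  have hw0 : w ≠ 0 := by
    rw [hw]
    exact mul_ne_zero (pow_ne_zero _ hf0) (pow_ne_zero _ hg0)
  have hordw : ∀ P : Place ℂ K, P.ord w = k * P.ord f0 + T * P.ord g := by
    intro P
    rw [hw, P.ord_mul (pow_ne_zero _ hf0) (pow_ne_zero _ hg0), P.ord_pow, P.ord_pow]
  have hwmem : w ∈ localRing y Q := by
    refine mem_localRing_of_reg hy fun P hP hPt => ?_
    right
    have h1 := hreg P hP
    have h2 := hg P hP hPt
    have h3 := mul_le_mul_of_nonneg_left h1 hkq.le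
    have h4 : (0 : ℚ) ≤ ((P.ord w : ℤ) : ℚ) := by
      rw [hordw]
      push_cast
      rw [h2]
      linarith
    exact_mod_cast h4
  -- the unit
  obtain ⟨u, hu⟩ : ∃ u, u = f ^ k * (y i / y l) ^ (m * k) * g ^ (m * q) := ⟨_, rfl⟩
  have hu0 : u ≠ 0 := by
    rw [hu]
    exact mul_ne_zero (mul_ne_zero (pow_ne_zero _ hf) (pow_ne_zero _ hyl)) (pow_ne_zero _ hg0)
  have hordu : ∀ P : Place ℂ K, P.ord u = k * P.ord f + (m * k : ℕ) * P.ord (y i / y l) +
      (m * q : ℕ) * P.ord g := by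
    intro P
    rw [hu, P.ord_mul (mul_ne_zero (pow_ne_zero _ hf) (pow_ne_zero _ hyl)) (pow_ne_zero _ hg0),
      P.ord_mul (pow_ne_zero _ hf) (pow_ne_zero _ hyl), P.ord_pow, P.ord_pow, P.ord_pow]
  have huQ : Q.ord u = 0 := by
    refine unit_localRing hy hu0 fun P hP hPt => ?_
    have h1 := hf2 P l hP hPt (hPt.centred hl)
    have h2 := hg P hP hPt
    have h3 : ((P.ord u : ℤ) : ℚ) = 0 := by
      rw [hordu]
      push_cast at h1 ⊢
      rw [h1, h2]
      ring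
    exact_mod_cast h3
  rw [hordu] at huQ
  have hwQ : Q.ord w = 0 := by
    have h1 := (Q.reg_iff hw0).1 (localRing_reg hwmem)
    by_contra hne
    have h2 : 1 ≤ Q.ord w := by omega
    have h3 := hC1 (m * q) m f hf hf1
    have h4 : 0 ≤ Q.ord (y i / y l) := (Q.reg_iff hyl).1 (hl.2 i)
    rw [hordw] at h2
    have h5 : ((m * q : ℕ) : ℤ) * (k * Q.ord f0 + T * Q.ord g) ≤
        k * (C1 * (m + 1)) := by
      have h6 : (k : ℤ) * (((m * q : ℕ) : ℤ) * Q.ord f0) ≤ k * (T * Q.ord f + C1 * (m + 1)) :=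
        mul_le_mul_of_nonneg_left h3 (by positivity)
      have h7 : (0 : ℤ) ≤ (T : ℤ) * ((m * k : ℕ) * Q.ord (y i / y l)) := by positivity
      have h8 : (T : ℤ) * (((m * q : ℕ) : ℤ) * Q.ord g) = -(T * (k * Q.ord f)) -
          T * ((m * k : ℕ) * Q.ord (y i / y l)) := by
        linear_combination (T : ℤ) * huQ
      linarith
    have h6 : ((m * q : ℕ) : ℤ) * 1 ≤ ((m * q : ℕ) : ℤ) * (k * Q.ord f0 + T * Q.ord g) :=
      mul_le_mul_of_nonneg_left h2 (by positivity)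
    have h7 : ((m * q : ℕ) : ℤ) ≤ k * (C1 * (m + 1)) := by linarith
    have h8 : (1 : ℤ) ≤ m := by exact_mod_cast hm
    have h9 : ((m * q : ℕ) : ℤ) = m * (2 * C1 * k + 1) := by
      rw [hq]
      push_cast
      ring
    rw [h9] at h7
    have h10 : (0 : ℤ) ≤ (k : ℤ) * C1 := by positivity
    nlinarith
  intro P hP hPt
  have h1 := hPt _ (inv_localRing hwmem hw0 hwQ)
  have h2 := hPt _ hwmem
  rw [P.reg_iff (inv_ne_zero hw0), P.ord_inv] at h1
  rw [P.reg_iff hw0] at h2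
  have h3 : P.ord w = 0 := by omega
  rw [hordw] at h3
  have h4 := hg P hP hPt
  have h5 : (k : ℚ) * P.ord f0 + T * P.ord g = 0 := by exact_mod_cast h3
  rw [h4] at h5
  have h6 : (k : ℚ) * (P.ord f0 + T * L P) = 0 := by linarith
  have h7 := (mul_eq_zero.1 h6).resolve_left hkq.ne'
  linarith

end

namespace Cv

variable {d : ℕ} {Φ : Arr (d + 1)} {K : Type} [Field K] [Algebra ℂ K] {R : ℕ} (C : Cv Φ K R)
  {N : ℕ} {y : Fin (N + 1) → K} {L : Place ℂ K → ℚ} {r : ℕ}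
  {η : (Fin (d + 1) → Derivation ℂ K K) → K}

/-- the order of the monomial forms -/
theorem mon_primeV {T' : ℕ} (hT' : 0 < T') {w : Fin (d + 2) → ℤ} (hw0 : ∀ k, 0 ≤ w k)
    (hdeg : ∑ k, (Φ.dF k : ℤ) * w k = (∑ k, (Φ.dF k : ℤ) - (d + 2)) * T') {P : Place ℂ K}
    (hP : Divisorial (d + 1) P) :
    OrdGe P (C.mon T' w) (∑ k, (C.vec P k : ℚ) * w k - (if C.vec P = 0 then 0 else (T' : ℚ))) := by
  classical
  have hMpos : (0 : ℚ) < T' := by exact_mod_cast hT'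
  have hw0q : ∀ k, (0 : ℚ) ≤ w k := fun k => by exact_mod_cast hw0 k
  have hp : (fun k => (w k : ℚ) / T') ∈ PiB C.M C.a Φ.dF (fun _ => 1) 0 := by
    refine ⟨?_, fun v hv => ?_⟩
    · have h1 : ∑ k, (Φ.dF k : ℚ) * ((w k : ℚ) / T') = (∑ k, (Φ.dF k : ℚ) * w k) / T' := by
        rw [Finset.sum_div]
        exact Finset.sum_congr rfl fun k _ => by ring
      have h2 : ∑ k, (Φ.dF k : ℚ) * w k = (∑ k, (Φ.dF k : ℚ) - (d + 2)) * T' := by
        have h4 : ((∑ k, (Φ.dF k : ℤ) * w k : ℤ) : ℚ) =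
            (((∑ k, (Φ.dF k : ℤ) - (d + 2)) * T' : ℤ) : ℚ) := by rw [hdeg]
        push_cast at h4
        exact h4
      rw [h1, h2, mul_div_assoc, div_self hMpos.ne']
      push_cast
      ring
    · rw [sub_self]
      exact Finset.sum_nonneg fun k _ => mul_nonneg (by positivity)
        (div_nonneg (hw0q k) hMpos.le)
  have hdot : (T' : ℚ) * ∑ k, (C.vec P k : ℚ) * ((w k : ℚ) / T') = ∑ k, (C.vec P k : ℚ) * w k := by
    rw [Finset.mul_sum]
    refine Finset.sum_congr rfl fun k _ => ?_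
    field_simp
  intro E hE
  obtain ⟨α, -, hdat⟩ := C.exists_vec P
  refine (C.mon_lowB hp (T := T') (w := w) (fun k => by rw [mul_div_cancel₀ _ hMpos.ne'])
    hP hdat hE).imp id ?_
  rintro ⟨h1, -⟩
  rw [zero_mul, add_zero, mul_sub, hdot] at h1
  split_ifs at h1 ⊢ <;> linarith

/-- **Zariski decompositions of uniform divisors.** -/
theorem zar_tri (hy : NormalModel y) (hn : Algebra.trdeg ℂ K = ((d + 1 : ℕ) : Cardinal))
    (hr : 0 < r) (hη : Tri y (d + 1) r η) (h : C.UnC y (fun _ : Fin 1 => L))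
    (hps : ∃ i, y i ≠ 0 ∧ ∀ M : ℕ, 1 ≤ M → ∃ j : ℕ, 1 ≤ j ∧ ∃ f : K, f ≠ 0 ∧
      TSec y i L (j * M) j f) :
    ∃ T : ℕ, 0 < T ∧ ∃ (N' : ℕ) (s : Fin (N' + 1) → K), (∀ i, s i ≠ 0 ∧
      ∀ P, IsPrimeDivisor y P → -(T * L P) ≤ ((P.ord (s i) : ℤ) : ℚ)) ∧
      ∀ Q : Place ℂ K, ∃ i, ∀ i0, y i0 ≠ 0 → ∃ C1 : ℕ, ∀ (m j : ℕ) (f : K), f ≠ 0 →
        TSec y i0 L m j f → (m : ℤ) * Q.ord (s i) ≤ T * Q.ord f + C1 * (j + 1) := by
  classical
  obtain ⟨D0, hD0⟩ := exists_dual C.u_bas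
  have hD : ∀ i j, D0 i (C.u j) = if i = j then 1 else 0 := by
    intro i j
    have h1 := congrFun (congrFun hD0 i) j
    rw [Matrix.of_apply, Matrix.one_apply] at h1
    exact h1
  obtain ⟨hfr, ⟨c, hc⟩, hne⟩ := exists_cc hy hn C.u_bas hD
  have hdiv : ∀ P, IsPrimeDivisor y P → Divisorial (d + 1) P := fun P hP => hP.divisorial hy hn
  have hηD : η D0 ≠ 0 := by
    obtain ⟨Q0, -⟩ := C.exists_div
    obtain ⟨P0, hP0, -⟩ := exists_through hy Q0
    exact hne r η hη.plu P0 _ (hη.gen P0 hP0)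
  have hηP : ∀ P, IsPrimeDivisor y P → ((r : ℚ) * c P + P.ord (η D0)) = 0 := fun P hP =>
    ((hc P (hdiv P hP) _ η hη.plu _).2 hηD).1 (hη.gen P hP)
  have hLPl : ∀ P, IsPrimeDivisor y P → P ∈ C.LPl := fun P hP => C.tri_LPl hy hn hr hη hP
  -- the coefficients are bounded
  obtain ⟨B, hB⟩ : ∃ B : ℕ, ∀ P, IsPrimeDivisor y P → |L P| ≤ B := by
    obtain ⟨B, hB⟩ := ((h.fin 0).image fun P => |L P|).bddAbove
    obtain ⟨B', hB'⟩ := exists_nat_ge B
    refine ⟨B', fun P hP => ?_⟩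
    by_cases h0 : L P = 0
    · rw [h0, abs_zero]
      positivity
    · exact (hB ⟨P, ⟨hP, h0⟩, rfl⟩).trans hB'
  have hLB : ∀ P, IsPrimeDivisor y P → L P ≤ B := fun P hP => (abs_le.1 (hB P hP)).2
  have hLB' : ∀ P, IsPrimeDivisor y P → -(B : ℚ) ≤ L P := fun P hP => (abs_le.1 (hB P hP)).1
  -- the test vectors
  obtain ⟨S0, hadm, hunit, hsuff⟩ := C.exists_S0 (y := y) (L := fun _ : Fin 1 => L) h.fin
  choose T hT using fun s : {v // v ∈ S0} => C.exists_dir (hadm s.1 s.2)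
  have hexc := C.fin_exc hy hn hη T
  -- the bounds at the exceptional places
  choose cQ hcQ using fun z : {i : Fin (N + 1) // y i ≠ 0} × Place ℂ K =>
    tsec_bound hy (h.fin 0) hLB z.1.2 z.2
  obtain ⟨B2, hB2⟩ : ∃ B2 : ℕ, ∀ Q ∈ {P : Place ℂ K | P ∈ C.LPl ∧ C.Need T P ∧
      Divisorial (d + 1) P ∧ ¬ IsPrimeDivisor y P}, ∀ i, cQ (i, Q) ≤ B2 := by
    obtain ⟨B2, hB2⟩ := ((Set.finite_univ (α := {i : Fin (N + 1) // y i ≠ 0})).prod hexc |>.image
      cQ).bddAbove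
    exact ⟨B2, fun Q hQ i => hB2 ⟨(i, Q), ⟨Set.mem_univ _, hQ⟩, rfl⟩⟩
  obtain ⟨k1, hk1⟩ : ∃ k1 : ℕ, k1 = 3 * B + 2 * B2 + 1 := ⟨_, rfl⟩
  have hk1pos : 0 < k1 := by omega
  have hrq : (1 : ℚ) ≤ r := by exact_mod_cast hr
  have hr0 : (0 : ℚ) < r := by linarith
  have hk1q : (k1 : ℚ) = 3 * B + 2 * B2 + 1 := by
    rw [hk1]
    push_cast
    ring
  have hBq : (0 : ℚ) ≤ B := by positivity
  have hB2q : (0 : ℚ) ≤ B2 := by positivity
  have hk1q0 : (0 : ℚ) < k1 := by exact_mod_cast hk1pos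
  obtain ⟨k0, hk0⟩ : ∃ k0 : ℕ, k0 = r * k1 := ⟨_, rfl⟩
  have hk0q : (k0 : ℚ) = r * k1 := by
    rw [hk0]
    push_cast
    ring
  have hk0n : 0 < k0 := by
    rw [hk0]
    exact Nat.mul_pos hr hk1pos
  have hk0pos : (0 : ℚ) < k0 := by exact_mod_cast hk0n
  have hk0k1 : (k1 : ℚ) ≤ k0 := by
    rw [hk0q]
    nlinarith
  have hB3 : 3 * (B : ℚ) ≤ k0 := by linarith
  have hBk : (B : ℚ) / k0 ≤ 1 / (2 * r) := by
    rw [div_le_div_iff₀ hk0pos (by positivity), hk0q]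
    nlinarith
  have hBk3 : (B : ℚ) / k0 ≤ 1 / 3 := by
    rw [div_le_div_iff₀ hk0pos (by norm_num)]
    linarith
  have hLk : ∀ P, IsPrimeDivisor y P → L P / k0 ≤ B / k0 ∧ -(B / k0) ≤ L P / k0 := by
    intro P hP
    refine ⟨div_le_div_of_nonneg_right (hLB P hP) hk0pos.le, ?_⟩
    rw [← neg_div]
    exact div_le_div_of_nonneg_right (hLB' P hP) hk0pos.le
  -- the data
  obtain ⟨W, hW⟩ : ∃ W : Set (Place ℂ K), W = {P | P ∈ C.LPl ∧ C.Need T P} := ⟨_, rfl⟩
  have hWL : ∀ P ∈ W, P ∈ C.LPl := fun P hP => by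
    rw [hW] at hP
    exact hP.1
  obtain ⟨δ, hδ⟩ : ∃ δ : Place ℂ K → ℚ, δ = fun P =>
    if IsPrimeDivisor y P then L P / k0 else if Divisorial (d + 1) P then -(1 / (2 * r)) else -1 :=
    ⟨_, rfl⟩
  obtain ⟨Ch, hCh⟩ : ∃ Ch : (Fin (d + 2) → ℕ) → Place ℂ K → Prop, Ch = fun v P =>
    IsPrimeDivisor y P ∧ P ∈ C.LPl ∧ C.vec P ≠ 0 ∧ C.vec P = v := ⟨_, rfl⟩
  have hCh' : ∀ v P, Ch v P → IsPrimeDivisor y P ∧ P ∈ C.LPl ∧ C.vec P ≠ 0 ∧ C.vec P = v := by
    intro v P h1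
    rw [hCh] at h1
    exact h1
  obtain ⟨a0, ha0d⟩ : ∃ a0 : (Fin (d + 2) → ℕ) → ℚ, a0 = fun v =>
    if h : ∃ P, Ch v P then 1 - L h.choose / k0 else 0 := ⟨_, rfl⟩
  have ha0 : ∀ v, (a0 v = 0 ∧ ¬ ∃ P, Ch v P) ∨
      (∃ P, Ch v P) ∧ ∀ P, Ch v P → a0 v = 1 - L P / k0 := by
    intro v
    by_cases hex : ∃ P, Ch v P
    · right
      refine ⟨hex, fun P hP => ?_⟩
      rw [ha0d]
      dsimp only
      rw [dif_pos hex]
      have h1 := hCh' _ _ hex.choose_spec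
      have h2 := hCh' _ _ hP
      rw [h.u1 0 _ P h1.1 h2.1 h1.2.1 h2.2.1 (h1.2.2.2.trans h2.2.2.2.symm)]
    · left
      refine ⟨?_, hex⟩
      rw [ha0d]
      dsimp only
      rw [dif_neg hex]
  have hA1 : ∀ v, 0 ≤ a0 v := by
    intro v
    rcases ha0 v with ⟨h1, -⟩ | ⟨⟨P, hP⟩, h2⟩
    · rw [h1]
    · rw [h2 P hP]
      have := (hLk P (hCh' _ _ hP).1).1
      linarith
  have hA2 : ∀ P, IsPrimeDivisor y P → C.vec P ≠ 0 →
      ∃ v' ∈ S0, v' ≤ C.vec P ∧ 1 - L P / k0 ≤ a0 v' := by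
    intro P hP hv
    obtain ⟨v', hv', hle, P', hP', hPL', hv0, hvP', hLP'⟩ := hsuff P hP (hLPl P hP) hv
    refine ⟨v', hv', hle, ?_⟩
    have h1 : Ch v' P' := by
      rw [hCh]
      exact ⟨hP', hPL', hv0, hvP'⟩
    rcases ha0 v' with ⟨-, h2⟩ | ⟨-, h2⟩
    · exact absurd ⟨P', h1⟩ h2
    · rw [h2 P' h1, hLP' 0]
  have hcond : C.CondV W δ T a0 := by
    refine ⟨hunit, hT, fun P h1 h2 => by rw [hW]; exact ⟨h1, h2⟩, fun P hPW α hdat => ?_,
      fun P _ => ?_, fun s P hPW α v' g hdat hv' hg hv => ?_⟩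
    · have hv0 : C.vec P = 0 := C.vec_eq hdat
      rw [hδ]
      dsimp only
      split_ifs with h1 h2
      · rw [h.u0 0 P h1 (hWL P hPW) hv0, zero_div]
      · have : (0 : ℚ) ≤ 1 / (2 * r) := by positivity
        linarith
      · norm_num
    · rw [hδ]
      dsimp only
      split_ifs with h1 h2
      · have := (hLk P h1).1
        linarith
      · have : (0 : ℚ) ≤ 1 / (2 * r) := by positivity
        linarith
      · norm_num
    · have hg1 : (1 : ℚ) ≤ g := by exact_mod_cast hg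
      have hvP : C.vec P = v' := C.vec_eq hdat
      rw [hT] at hv
      have hδ1 : δ P ≤ 1 / 3 := by
        rw [hδ]
        dsimp only
        split_ifs with h1 h2
        · exact (hLk P h1).1.trans hBk3
        · have : (0 : ℚ) ≤ 1 / (2 * r) := by positivity
          linarith
        · norm_num
      rcases ha0 s.1 with ⟨h1, -⟩ | ⟨⟨P', hP'⟩, h2⟩
      · rw [h1]
        exact mul_nonneg (by linarith) (by linarith)
      rw [h2 P' hP']
      have hP' := hCh' _ _ hP'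
      have hL' := hLk P' hP'.1
      by_cases hPp : IsPrimeDivisor y P
      · have hδP : δ P = L P / k0 := by
          rw [hδ]
          dsimp only
          rw [if_pos hPp]
        by_cases hg' : g = 1
        · subst hg'
          have hvv : C.vec P = C.vec P' := by
            rw [hvP, hP'.2.2.2, hv]
            funext k
            simp
          rw [hδP, h.u1 0 P P' hPp hP'.1 (hWL P hPW) hP'.2.1 hvv]
          simp
        · have hg2 : (2 : ℚ) ≤ g := by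
            have : 2 ≤ g := by omega
            exact_mod_cast this
          have h3 : (2 : ℚ) * (1 - δ P) ≤ g * (1 - δ P) :=
            mul_le_mul_of_nonneg_right hg2 (by linarith)
          linarith
      · have hδP : 1 + B / k0 ≤ 1 - δ P := by
          rw [hδ]
          dsimp only
          rw [if_neg hPp]
          split_ifs with h4
          · linarith
          · linarith
        have h3 : (1 : ℚ) * (1 - δ P) ≤ g * (1 - δ P) :=
          mul_le_mul_of_nonneg_right hg1 (by linarith)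
        linarith
  -- the sections
  have hsecW : ∀ (i : Fin (N + 1)) (hi : y i ≠ 0) (m j : ℕ) (f : K), f ≠ 0 → TSec y i L m j f →
      ASecB (d + 1) W δ (quo y i) (k0 * m) j (fun E => η E ^ (k1 * m) * f) := by
    intro i hi m j f hf0 hf
    have hp : IsPluri (k0 * m) fun E => η E ^ (k1 * m) * f := by
      have h1 : k0 * m = r * (k1 * m) := by
        rw [hk0]
        ring
      rw [h1]
      exact pluri_mulc (pluri_pow hη.plu _) _
    refine ⟨hp, fun Q hQW hQ E hE => ?_⟩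
    obtain ⟨l, hl⟩ := exists_centred hy Q
    have hyl : y i / y l ≠ 0 := div_ne_zero hi hl.1
    have h4 : OrdGe Q (fun E => η E ^ (k1 * m) * f)
        (-(((k0 * m : ℕ) : ℚ) * δ Q) - j * Q.ord (y i / y l)) := by
      refine (hc Q hQ _ _ hp _).1.2 (Or.inr ?_)
      change _ ≤ _ + ((Q.ord (η D0 ^ (k1 * m) * f) : ℤ) : ℚ)
      rw [Q.ord_mul (pow_ne_zero _ hηD) hf0, Q.ord_pow]
      by_cases hQp : IsPrimeDivisor y Q
      · have hδQ : δ Q = L Q / k0 := by
          rw [hδ]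
          dsimp only
          rw [if_pos hQp]
        have h1 := hf Q l hQp hl
        have h2 := hηP Q hQp
        rw [hδQ]
        push_cast
        have h3 : ((k0 : ℚ) * m) * (L Q / k0) = m * L Q := by field_simp
        have h5 : ((k1 : ℚ) * m) * ((r : ℚ) * c Q + Q.ord (η D0)) = 0 := by
          rw [h2, mul_zero]
        rw [h3, hk0q]
        linarith
      · have hδQ : δ Q = -(1 / (2 * r)) := by
          rw [hδ]
          dsimp only
          rw [if_neg hQp, if_pos hQ]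
        have h1 := hcQ (⟨i, hi⟩, Q) l hl m j f hf0 hf
        have hQW' : Q ∈ C.LPl ∧ C.Need T Q := by
          rw [hW] at hQW
          exact hQW
        have h2 := hB2 Q ⟨hQW'.1, hQW'.2, hQ, hQp⟩ ⟨i, hi⟩
        have h3 := ((hc Q hQ _ η hη.plu _).1.1 (hη.ter Q hQ hQp)).resolve_left hηD
        rw [hδQ]
        have h1' : (((-((cQ (⟨i, hi⟩, Q) * m : ℕ) : ℤ) - j * Q.ord (y i / y l)) : ℤ) : ℚ) ≤
            ((Q.ord f : ℤ) : ℚ) := by exact_mod_cast h1
        push_cast at h1' ⊢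
        have h2' : (cQ (⟨i, hi⟩, Q) : ℚ) ≤ B2 := by exact_mod_cast h2
        have hMm0 : (0 : ℚ) ≤ m := by positivity
        have h5 := mul_le_mul_of_nonneg_right h2' hMm0
        have h6 := mul_le_mul_of_nonneg_left h3 (show (0 : ℚ) ≤ k1 * m by positivity)
        have h7 : (0 : ℚ) ≤ B * m := by positivity
        have h8 : (k1 : ℚ) * m = 3 * (B * m) + 2 * (B2 * m) + m := by
          rw [hk1q]
          ring
        have h9 : ((k0 : ℚ) * m) * -(1 / (2 * r)) = -(k1 * m / 2) := by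
          rw [hk0q]
          field_simp
        rw [h9, hk0q]
        linarith
    rcases h4 E hE with h5 | h5
    · exact Or.inl h5
    right
    refine ⟨y l / y i, mem_quo y i l, div_ne_zero hl.1 hi, ?_⟩
    have h6 : Q.ord (y l / y i) = - Q.ord (y i / y l) := by
      rw [Q.ord_div hl.1 hi, Q.ord_div hi hl.1]
      ring
    rw [h6]
    push_cast at h5 ⊢
    linarith
  have hPol : (PolV (Φ := Φ) S0 a0).Nonempty := by
    by_contra hcon
    rw [Set.not_nonempty_iff_eq_empty] at hcon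
    obtain ⟨i, hi, hM⟩ := hps
    obtain ⟨A0, hA0, hz⟩ := C.sec_zeroV hcond (quo y i) hD hcon
    obtain ⟨M, hMA⟩ := exists_nat_gt (2 * A0)
    have hM1 : 1 ≤ M := by
      have h1 : (0 : ℚ) < M := lt_of_le_of_lt (by positivity) hMA
      exact_mod_cast h1
    obtain ⟨j, hj, f, hf0, hf⟩ := hM M hM1
    have h1 := hz (k0 * (j * M)) j _ (asecB_sec (hsecW i hi (j * M) j f hf0 hf)) (by
      have h1 : (1 : ℚ) ≤ j := by exact_mod_cast hj
      have h2 : (1 : ℚ) ≤ k0 := by exact_mod_cast hk0n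
      push_cast
      have h3 : A0 * (j + 1) < j * M := by nlinarith
      have h4 : (0 : ℚ) ≤ j * M := by positivity
      nlinarith)
    exact mul_ne_zero (pow_ne_zero _ hηD) hf0 h1
  obtain ⟨T', hTpos, N', w, hw, hQ⟩ := C.zarV hcond hA1 hPol hD
  have hTq : (0 : ℚ) < T' := by exact_mod_cast hTpos
  refine ⟨T', hTpos, N', fun i => C.mon T' (w i) D0 ^ k0 / η D0 ^ (k1 * T'), fun i =>
    ⟨div_ne_zero (pow_ne_zero _ (hw i).2.2.2) (pow_ne_zero _ hηD), fun P hP => ?_⟩, fun Q => ?_⟩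
  · rw [P.ord_div (pow_ne_zero _ (hw i).2.2.2) (pow_ne_zero _ hηD), P.ord_pow, P.ord_pow]
    have h1 := ((hc P (hdiv P hP) _ _ (C.mon_pluri T' (w i)) _).1.1
      (C.mon_primeV hTpos (hw i).1 (hw i).2.1 (hdiv P hP))).resolve_left (hw i).2.2.2
    have h2 := hηP P hP
    have h3 : -((T' : ℚ) * (L P / k0)) ≤ T' * c P + P.ord (C.mon T' (w i) D0) := by
      by_cases hv : C.vec P = 0
      · rw [if_pos hv, hv] at h1
        rw [h.u0 0 P hP (hLPl P hP) hv]
        simp only [Pi.zero_apply, Nat.cast_zero, zero_mul, Finset.sum_const_zero, sub_zero] at h1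
        rw [zero_div, mul_zero, neg_zero]
        exact h1
      · rw [if_neg hv] at h1
        obtain ⟨v', hv', hle, hb⟩ := hA2 P hP hv
        have h4 := (hw i).2.2.1 v' hv'
        have h5 : ∑ k, (v' k : ℚ) * w i k ≤ ∑ k, (C.vec P k : ℚ) * w i k := by
          refine Finset.sum_le_sum fun k _ => mul_le_mul_of_nonneg_right ?_ ?_
          · exact_mod_cast hle k
          · exact_mod_cast (hw i).1 k
        have h6 := mul_le_mul_of_nonneg_left hb hTq.le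
        linarith
    have h4 := mul_le_mul_of_nonneg_left h3 hk0pos.le
    have h5 : (k0 : ℚ) * -((T' : ℚ) * (L P / k0)) = -(T' * L P) := by field_simp
    have h6 : ((k1 : ℚ) * T') * ((r : ℚ) * c P + P.ord (η D0)) = 0 := by rw [h2, mul_zero]
    rw [h5] at h4
    push_cast
    have h7 : (k0 : ℚ) * (T' * c P) = r * k1 * (T' * c P) := by rw [hk0q]
    linarith
  · obtain ⟨i, hi⟩ := hQ Q
    refine ⟨i, fun i0 hi0 => ?_⟩
    obtain ⟨A1, hA1, hlow⟩ := hi (quo y i0)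
    obtain ⟨C1, hC1⟩ := exists_nat_ge A1
    refine ⟨C1, fun m j f hf0 hf => ?_⟩
    have h1 := (hlow (k0 * m) j _ (hsecW i0 hi0 m j f hf0 hf)).resolve_left
      (mul_ne_zero (pow_ne_zero _ hηD) hf0)
    change _ ≤ (T' : ℚ) * ((Q.ord (η D0 ^ (k1 * m) * f) : ℤ) : ℚ) + _ at h1
    rw [Q.ord_mul (pow_ne_zero _ hηD) hf0, Q.ord_pow] at h1
    rw [Q.ord_div (pow_ne_zero _ (hw i).2.2.2) (pow_ne_zero _ hηD), Q.ord_pow, Q.ord_pow]
    have h6 : A1 * (j + 1) ≤ (C1 : ℚ) * (j + 1) :=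
      mul_le_mul_of_nonneg_right hC1 (by positivity)
    have h7 : ((m * (k0 * Q.ord (C.mon T' (w i) D0) - (k1 * T' : ℕ) * Q.ord (η D0)) : ℤ) : ℚ) ≤
        ((T' * Q.ord f + C1 * (j + 1) : ℤ) : ℚ) := by
      push_cast at h1 ⊢
      linarith
    exact_mod_cast h7

/-- **Uniform nef divisors are semiample.** -/
theorem nef_tri (hy : NormalModel y) (hn : Algebra.trdeg ℂ K = ((d + 1 : ℕ) : Cardinal))
    (hr : 0 < r) (hη : Tri y (d + 1) r η) (h : C.UnC y (fun _ : Fin 1 => L))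
    (hnef : NefF y (d + 1) L) :
    ∃ T : ℕ, 0 < T ∧ ∀ Q : Place ℂ K, Divisorial (d + 1) Q → ∃ f : K, f ≠ 0 ∧
      (∀ P, IsPrimeDivisor y P → -(T * L P) ≤ (P.ord f : ℚ)) ∧
      ∀ P, IsPrimeDivisor y P → Through y P Q → (P.ord f : ℚ) = -(T * L P) := by
  classical
  obtain ⟨Q0, hQ0⟩ := C.exists_div
  obtain ⟨T, hTpos, N', s, hs, hQ⟩ := C.zar_tri hy hn hr hη h (by
    obtain ⟨i, hi⟩ := hy.ne
    refine ⟨i, hi, fun M hM => ?_⟩
    obtain ⟨m, hm, hgen⟩ := hnef i hi M hM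
    obtain ⟨f, hf0, hf, -⟩ := hgen Q0 hQ0
    exact ⟨m, hm, f, hf0, hf⟩)
  refine ⟨T, hTpos, fun Q hQd => ?_⟩
  obtain ⟨i, hi⟩ := hQ Q
  exact ⟨s i, (hs i).1, (hs i).2, semi_of_zar hy hnef hQd (hs i).1 (hs i).2 hi⟩

end Cv

end Pool.Agent.J4.H19.LC
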