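import Pool.Agent.J4.H19.LQ.SecTr

/-!
The order of the sections of `m (K + Δ)` at the three kinds of places, with conditions only at the
places which are needed.
-/

set_option autoImplicit false
set_option linter.overlappingInstances false
set_option linter.unusedSectionVars false
set_option maxHeartbeats 400000

open FF MvPolynomial IntermediateField Pool.Agent.W603.LV Pool.Agent.W619.PQ
open Pool.Agent.W619.TW Pool.Agent.W602.GT Pool.Agent.TH122.AB Pool.Agent.TH756.PN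
open Pool.Agent.Y169.CH Pool.Agent.W602.Cov.G Pool.Agent.W619.Y

open Pool.Agent.Y169.TH

namespace Pool.Agent.J4.H19.LC

namespace Cv

variable {d : ℕ} {Φ : Arr (d + 1)} {K : Type} [Field K] [Algebra ℂ K] {R : ℕ} (C : Cv Φ K R)

section

variable {K0 : Type} [Field K0] [Algebra ℂ K0] [Algebra K0 K] [IsScalarTower ℂ K0 K]
  [FiniteDimensional K0 K] {δ : Place ℂ K → ℚ}
  {W : Set (Place ℂ K)}

/-- the places of the irreducible polynomials -/
theorem adic_fV (hδ0 : ∀ P ∈ W, ∀ α, Dat P Φ.F Φ.dF C.x α 0 → δ P ≤ 0)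
    (hδ1 : ∀ P ∈ W, δ P ≤ 1)
    {X : Fin (d + 1) → K0} (hX : Gens (k := ℂ) X)
    (hXu : ∀ j, algebraMap K0 K (X j) = C.u j) {D : Fin (d + 1) → Derivation ℂ K K}
    (hD : ∀ i j, D i (C.u j) = if i = j then 1 else 0) {p : MvPolynomial (Fin (d + 1)) ℂ}
    (hp : Irreducible p) {v : Place ℂ K0} (hvp : v.ord (aeval X p) = 1)
    (hv : ∀ P, P ≠ 0 → 0 ≤ v.ord (aeval X P) ∧ (v.ord (aeval X P) = 0 ↔ ¬ p ∣ P))
    {P : Place ℂ K} {e : ℕ} (h : Over P v e) (hPW : P ∈ C.LPl → P ∈ W)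
    (he : e = 1 ∨ ∃ t, p ∣ deh (Φ.F t)) {S' : Finset K}
    {m : ℕ} {ω : (Fin (d + 1) → Derivation ℂ K K) → K} (hω : SecB (d + 1) W δ S' m ω) :
    ω D * C.Lam m = 0 ∨ ∃ s ∈ S', s ≠ 0 ∧ P.ord s ≤ P.ord (ω D * C.Lam m) := by
  classical
  have htr := trdeg_of_basis C.u_bas
  have hXK : (fun j => algebraMap K0 K (X j)) = C.u := funext hXu
  have hD' : ∀ i j, D i (algebraMap K0 K (X j)) = if i = j then 1 else 0 := fun i j => by
    rw [hXu]
    exact hD i j
  obtain ⟨b0, hb0', hb⟩ := exists_pderiv hp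
  have hDb : D b0 (algebraMap K0 K (aeval X p)) = algebraMap K0 K (aeval X (pderiv b0 p)) := by
    rw [← Pool.Agent.TH122.AB.aeval_coe, ← Pool.Agent.TH122.AB.aeval_coe]
    exact der_aeval (hD' b0) p
  have hjac := fun (S' : Finset K) (m : ℕ) (ω : (Fin (d + 1) → Derivation ℂ K K) → K) =>
    jacP htr C.fin_all' h (div_adic hX hp hv h) D C.u C.u_bas hD
    (fun i z hz => pres_adic hX hp hv h (hD' i) hz) hvp b0 (by
      rw [hDb, Ne, map_eq_zero]
      exact hX.ne hb0') (by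
      rw [hDb, h.2, (hv _ hb0').2.2 hb, mul_zero]) S' m ω
  have hF : ∀ t, P.ord (aeval C.x (Φ.F t)) = e * v.ord (aeval X (deh (Φ.F t))) := by
    intro t
    rw [← C.ae_deh, C.ae_K0 hXu, h.2]
  have hnn : ∀ t, 0 ≤ P.ord (aeval C.x (Φ.F t)) := by
    intro t
    rw [hF]
    exact mul_nonneg (by positivity) (hv _ (deh_F_ne t)).1
  -- the coordinates are regular
  obtain ⟨α, vv, hα, hdat⟩ := C.exists_dat P
  have hα0 : α = 0 := by
    obtain ⟨j, hj⟩ := hdat.ha2
    have h1 : 0 ≤ P.ord (C.x j) := by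
      refine Fin.cases ?_ (fun l => ?_) j
      · rw [C.hx0, P.ord_one]
      · have h2 : C.x l.succ = aeval C.u (MvPolynomial.X l : MvPolynomial (Fin (d + 1)) ℂ) := by
          rw [aeval_X]; rfl
        rw [h2, C.ae_K0 hXu, h.2]
        exact mul_nonneg (by positivity) (hv _ (X_ne_zero _)).1
    omega
  have hvF : ∀ t, P.ord (aeval C.x (Φ.F t)) = vv t := fun t => by
    rw [hdat.hv, hα0, mul_zero, zero_add]
  have he1 : (1 : ℤ) ≤ e := by exact_mod_cast h.1
  have hsum : ∑ t, P.ord (aeval C.x (Φ.F t)) = ∑ t, (vv t : ℤ) :=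
    Finset.sum_congr rfl fun t _ => hvF t
  -- the two cases
  have hcase : (vv ≠ 0 ∧ (e : ℤ) ≤ ∑ t, (vv t : ℤ)) ∨ (vv = 0 ∧ e = 1) := by
    by_cases hex : ∃ t, p ∣ deh (Φ.F t)
    · left
      obtain ⟨t, ht⟩ := hex
      have h2 : P.ord (aeval C.x (Φ.F t)) ≤ ∑ t, P.ord (aeval C.x (Φ.F t)) :=
        Finset.single_le_sum (f := fun t => P.ord (aeval C.x (Φ.F t))) (fun t _ => hnn t)
          (Finset.mem_univ t)
      have h3 : 1 ≤ v.ord (aeval X (deh (Φ.F t))) := by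
        have h4 : v.ord (aeval X (deh (Φ.F t))) ≠ 0 := fun h5 => (hv _ (deh_F_ne t)).2.1 h5 ht
        have h5 := (hv _ (deh_F_ne (Φ := Φ) t)).1
        omega
      have h4 : (e : ℤ) ≤ vv t := by
        rw [← hvF, hF]
        nlinarith
      rw [hsum, hvF] at h2
      refine ⟨fun h0 => ?_, h4.trans h2⟩
      rw [h0] at h4
      simp at h4
      omega
    · right
      have he' : e = 1 := he.resolve_right hex
      push Not at hex
      refine ⟨?_, he'⟩
      funext t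
      have h2 := hdat.hv t
      rw [hα0, mul_zero, zero_add, hF, (hv _ (deh_F_ne t)).2.2 (hex t), mul_zero] at h2
      rw [Pi.zero_apply]
      exact_mod_cast h2.symm
  have hPL : P ∈ C.LPl := by
    refine C.mem_LPl hdat fun hsec => ?_
    have h1 := hjac {1} 1 (fun D => bw D C.x) {P} _ (Set.mem_singleton _) hsec
    have hbw : bw D C.x = 1 := by
      rw [Pool.Agent.W930.CG.bw_one D C.x C.hx0]
      change (Matrix.of fun i j => D i (C.u j)).det = 1
      have h1 : (Matrix.of fun i j => D i (C.u j)) =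
          (1 : Matrix (Fin (d + 1)) (Fin (d + 1)) K) := by
        ext i j
        rw [Matrix.of_apply, Matrix.one_apply, hD]
      rw [h1, Matrix.det_one]
    rw [hbw] at h1
    obtain ⟨s, hs, -, hle⟩ := h1.resolve_left one_ne_zero
    rw [Finset.mem_singleton] at hs
    subst hs
    rw [P.ord_one, hα0] at hle
    rcases hcase with ⟨h2, h3⟩ | ⟨h2, h3⟩
    · rw [if_neg h2] at hle
      have h4 : (e : ℝ) ≤ ∑ t, (vv t : ℝ) := by exact_mod_cast h3
      push_cast at hle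
      linarith
    · rw [if_pos h2, h2, h3] at hle
      simp at hle
      linarith
  have hPL := hPW hPL
  have hjac := hjac S' m ω W (fun P => (δ P : ℝ)) hPL hω
  by_cases hz : ω D = 0
  · left
    rw [hz, zero_mul]
  obtain ⟨s, hs, hs0, hle⟩ := hjac.resolve_left hz
  right
  refine ⟨s, hs, hs0, ?_⟩
  have hle' : (P.ord s : ℚ) ≤ P.ord (ω D) + m * ((e : ℚ) - 1 + δ P) := by exact_mod_cast hle
  rw [P.ord_mul hz (C.Lam_ne m), C.ord_Lam]
  have key : ((e : ℚ) - 1) + δ P ≤ ((∑ t, P.ord (aeval C.x (Φ.F t)) : ℤ) : ℚ) := by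
    rw [hsum]
    rcases hcase with ⟨h2, h3⟩ | ⟨h2, h3⟩
    · have h5 : (e : ℚ) ≤ ((∑ t, (vv t : ℤ) : ℤ) : ℚ) := by exact_mod_cast h3
      have h6 := hδ1 P hPL
      linarith
    · subst h2
      have h6 := hδ0 P hPL α hdat
      rw [h3]
      simp only [Pi.zero_apply, Nat.cast_zero, Finset.sum_const_zero, Int.cast_zero, Nat.cast_one,
        sub_self, zero_add]
      exact h6
  have h4 : (m : ℚ) * (((e : ℚ) - 1) + δ P) ≤
      m * ((∑ t, P.ord (aeval C.x (Φ.F t)) : ℤ) : ℚ) :=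
    mul_le_mul_of_nonneg_left key (by positivity)
  have h5 : (P.ord s : ℚ) ≤ ((P.ord (ω D) + m * ∑ t, P.ord (aeval C.x (Φ.F t)) : ℤ) : ℚ) := by
    rw [Int.cast_add, Int.cast_mul, Int.cast_natCast]
    linarith
  exact_mod_cast h5

/-- the place at infinity -/
theorem inf_fV {X : Fin (d + 1) → K0} (hX : Gens (k := ℂ) X)
    (hXu : ∀ j, algebraMap K0 K (X j) = C.u j) {D : Fin (d + 1) → Derivation ℂ K K}
    (hD : ∀ i j, D i (C.u j) = if i = j then 1 else 0) :
    ∃ v0 : Place ℂ K0, (∀ P : MvPolynomial (Fin (d + 1)) ℂ, P ≠ 0 →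
        v0.ord (aeval X P) = - (degB Finset.univ P : ℤ)) ∧
      ∀ (W : Set (Place ℂ K)) (δ : Place ℂ K → ℚ),
        (∀ P ∈ W, ∀ α, Dat P Φ.F Φ.dF C.x α 0 → δ P ≤ 0) → ∀ (P : Place ℂ K), Over P v0 1 →
        (P ∈ C.LPl → P ∈ W) →
        ∀ (S' : Finset K) (m : ℕ)
        (ω : (Fin (d + 1) → Derivation ℂ K K) → K), SecB (d + 1) W δ S' m ω →
        ω D * C.Lam m = 0 ∨ ∃ s ∈ S', s ≠ 0 ∧ (P.ord s : ℚ) ≤
          P.ord (ω D * C.Lam m) + (∑ k, (Φ.dF k : ℚ) - (d + 2)) * m := by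
  classical
  have hXK : (fun j => algebraMap K0 K (X j)) = C.u := funext hXu
  obtain ⟨v0, h1, h2⟩ := exists_infP hX (by rw [hXK]; exact C.u_bas) C.fin_all' (D := D)
    (fun i j => by rw [hXu]; exact hD i j) (B := Finset.univ) (c := 0) (Finset.mem_univ _)
  refine ⟨v0, h1, fun W δ hδ0 P hP hPW S' m ω hω => ?_⟩
  have h4 : ∀ s, P.ord (aeval C.x (Φ.F s)) = - (Φ.dF s : ℤ) := by
    intro s
    rw [← C.ae_deh, C.ae_K0 hXu, hP.2, h1 _ (deh_F_ne s), degB_deh (Φ.hh s) (Φ.hI s)]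
    simp
  -- the coordinates
  obtain ⟨α, vv, hα, hdat⟩ := C.exists_dat P
  have hx1 : ∀ l : Fin (d + 1), P.ord (C.x l.succ) = -1 := by
    intro l
    have h5 : C.x l.succ = aeval C.u (MvPolynomial.X l : MvPolynomial (Fin (d + 1)) ℂ) := by
      rw [aeval_X]; rfl
    have h6 : degB Finset.univ (MvPolynomial.X l : MvPolynomial (Fin (d + 1)) ℂ) = 1 := by
      unfold degB
      rw [support_X, Finset.sup_singleton, Finset.sum_eq_single l]
      · simp
      · intro b _ hb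
        rw [Finsupp.single_apply, if_neg (Ne.symm hb)]
      · intro h
        exact absurd (Finset.mem_univ _) h
    rw [h5, C.ae_K0 hXu, hP.2, h1 _ (X_ne_zero _), h6]
    simp
  have hα1 : α = -1 := by
    have h5 := hdat.ha1 (0 : Fin (d + 1)).succ
    rw [hx1] at h5
    obtain ⟨j, hj⟩ := hdat.ha2
    have h6 : -1 ≤ P.ord (C.x j) := by
      refine Fin.cases ?_ (fun l => ?_) j
      · rw [C.hx0, P.ord_one]
        omega
      · rw [hx1]
    omega
  have hvv : vv = 0 := by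
    funext t
    have h5 := hdat.hv t
    rw [h4, hα1] at h5
    rw [Pi.zero_apply]
    have h6 : (vv t : ℤ) = 0 := by linarith
    exact_mod_cast h6
  have hPL : P ∈ C.LPl := by
    refine C.mem_LPl hdat fun hsec => ?_
    have h1 := h2 P 1 hP {1} 1 (fun D => bw D C.x) {P} _ (Set.mem_singleton _) hsec
    have hbw : bw D C.x = 1 := by
      rw [Pool.Agent.W930.CG.bw_one D C.x C.hx0]
      change (Matrix.of fun i j => D i (C.u j)).det = 1
      have h1 : (Matrix.of fun i j => D i (C.u j)) =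
          (1 : Matrix (Fin (d + 1)) (Fin (d + 1)) K) := by
        ext i j
        rw [Matrix.of_apply, Matrix.one_apply, hD]
      rw [h1, Matrix.det_one]
    rw [hbw] at h1
    obtain ⟨s, hs, -, hle⟩ := h1.resolve_left one_ne_zero
    rw [Finset.mem_singleton] at hs
    subst hs
    rw [P.ord_one, hα1, if_pos hvv, hvv, Finset.card_univ, Fintype.card_fin] at hle
    push_cast at hle
    simp at hle
    linarith
  have hPL := hPW hPL
  have h3 := h2 P 1 hP S' m ω W (fun P => (δ P : ℝ)) hPL hω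
  by_cases hz : ω D = 0
  · left
    rw [hz, zero_mul]
  obtain ⟨s, hs, hs0, hle⟩ := h3.resolve_left hz
  right
  refine ⟨s, hs, hs0, ?_⟩
  have hδP : δ P ≤ 0 := by
    subst hvv
    exact hδ0 P hPL α hdat
  have hle' : (P.ord s : ℚ) ≤ P.ord (ω D) + m * δ P - m * ((d : ℚ) + 2) := by
    have h5 : (P.ord s : ℝ) ≤ P.ord (ω D) + m * (δ P : ℝ) - m * ((d : ℝ) + 2) := by
      rw [Finset.card_univ, Fintype.card_fin] at hle
      push_cast at hle
      linarith
    exact_mod_cast h5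
  have hmδ : (m : ℚ) * δ P ≤ 0 := mul_nonpos_of_nonneg_of_nonpos (by positivity) hδP
  rw [P.ord_mul hz (C.Lam_ne m), C.ord_Lam]
  rw [Finset.sum_congr rfl fun s _ => h4 s, Finset.sum_neg_distrib]
  push_cast
  linarith

/-- the test places -/
theorem test_fV {Y : Fin (d + 1) → K0} (hY : Gens (k := ℂ) Y)
    (hYK : ∀ j, algebraMap K0 K (Y j) = C.Y j) {D : Fin (d + 1) → Derivation ℂ K K}
    (hD : ∀ i j, D i (C.u j) = if i = j then 1 else 0) {DY : Fin (d + 1) → Derivation ℂ K K}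
    (hDY : ∀ i j, DY i (C.Y j) = if i = j then 1 else 0) (lam : Fin (d + 1) → ℤ)
    {b0 : Fin (d + 1)} (hb0 : lam b0 ≠ 0) {v : Place ℂ K0}
    (hv : ∀ P : MvPolynomial (Fin (d + 1)) ℂ, P ≠ 0 → v.ord (aeval Y P) = zord lam P)
    {P : Place ℂ K} {e : ℕ} (h : Over P v e) (hPW : P ∈ C.LPl → P ∈ W)
    {α : ℤ} {vv : Fin (d + 2) → ℕ}
    (hdat : Dat P Φ.F Φ.dF C.x α vv) (hα : α ≤ 0) (hvv : vv ≠ 0) {S' : Finset K} {m : ℕ}
    {ω : (Fin (d + 1) → Derivation ℂ K K) → K} (hω : SecB (d + 1) W δ S' m ω) {q : ℕ}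
    (hq : (∑ k, (Φ.dF k : ℚ) - (d + 2)) * m ≤ Φ.E * q) :
    P ∈ C.LPl ∧ (ω D * C.Lam m / aeval C.x (Φ.G 0) ^ q = 0 ∨ ∃ s ∈ S', s ≠ 0 ∧
      (P.ord s : ℚ) + m * (1 - δ P) - q * (Φ.ee 0 * vv 0) ≤
        P.ord (ω D * C.Lam m / aeval C.x (Φ.G 0) ^ q)) := by
  classical
  have htr := trdeg_of_basis C.u_bas
  have hdiv : IsDivisorial P (d + 1) := div_zmono hY lam hb0 hv h
  -- the logarithmic frame
  obtain ⟨dd, hdddef⟩ : ∃ dd : Fin (d + 1) → Derivation ℂ K K,
    dd = fun b => algebraMap K0 K (Y b) • DY b := ⟨_, rfl⟩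
  have hlog : ∀ b z, P.Reg (dd b z / z) := fun b z => by
    rw [hdddef]
    exact log_zmono hY lam hv h (fun j => by rw [hYK]; exact hDY b j) z
  have hdd : ∀ i j, dd i (C.Y j) = if i = j then C.Y j else 0 := by
    intro i j
    rw [hdddef]
    dsimp only
    rw [Derivation.smul_apply, hDY, smul_eq_mul, hYK]
    split_ifs with hij
    · rw [mul_one, hij]
    · rw [mul_zero]
  obtain ⟨hB, hJ, hsum, hle0⟩ := C.ord_id hdat hdd
  have hPL : P ∈ C.LPl := by
    intro α' v' hdat'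
    obtain ⟨rfl, rfl⟩ := dat_uniq hdat hdat'
    by_contra hcon
    push Not at hcon
    have h1 : SecB (d + 1) {P} (fun _ => -(((d : ℚ) + 2) * α + ∑ k, (vv k : ℚ))) {1} 1
        (fun D => bw D C.x) := by
      refine ⟨bw_pluri C.x, ?_⟩
      rintro P' hP' - D hD
      rw [Set.mem_singleton_iff] at hP'
      subst hP'
      by_cases h0 : bw D C.x = 0
      · exact Or.inl h0
      right
      refine ⟨1, by simp, one_ne_zero, ?_⟩
      have h1 := hcon D hD h0
      rw [if_neg hvv] at h1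
      have h2 : ((d : ℤ) + 2) * α + ∑ k, (vv k : ℤ) ≤ P'.ord (bw D C.x) := by linarith
      have h3 : (((((d : ℤ) + 2) * α + ∑ k, (vv k : ℤ) : ℤ)) : ℝ) ≤
          P'.ord (bw D C.x) := by exact_mod_cast h2
      rw [P'.ord_one]
      push_cast at h3 ⊢
      linarith
    have h2 := jacLB htr C.fin_all' hdiv dd hlog {1} 1 (Set.mem_singleton P) _ _ h1
    obtain ⟨s, hs, -, hle⟩ := h2.resolve_left hB
    rw [Finset.mem_singleton] at hs
    subst hs
    rw [P.ord_one] at hle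
    have h3 : ((P.ord (bw dd C.x) + P.ord (aeval C.x (jc Φ)) : ℤ) : ℚ) =
        (((∑ k, (Φ.dF k : ℤ)) * α + ∑ k, (vv k : ℤ) : ℤ) : ℚ) := by rw [hsum]
    have h4 : (((∑ k, (Φ.dF k : ℤ) - ((d : ℤ) + 1 + 1)) * α : ℤ) : ℚ) ≤
        (P.ord (aeval C.x (jc Φ)) : ℚ) := by exact_mod_cast hle0
    push_cast at h3 h4 hle
    linarith
  refine ⟨hPL, ?_⟩
  have hPL := hPW hPL
  have hjac := jacLB htr C.fin_all' hdiv dd hlog S' m hPL δ ω hω
  -- the change of frames
  let J : Matrix (Fin (d + 1)) (Fin (d + 1)) K := Matrix.of fun a b => dd a (C.u b)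
  have hDJ : dd = fun a => ∑ b, J a b • D b := by
    funext a
    apply der_ext' C.u_bas
    intro j
    rw [sum_der, Finset.sum_eq_single j]
    · rw [hD, if_pos rfl, mul_one]
      rfl
    · intro b _ hb
      rw [hD, if_neg hb, mul_zero]
    · intro hj
      exact absurd (Finset.mem_univ _) hj
  have h1 : ω dd = bw dd C.x ^ m * ω D := by
    have h2 : bw dd C.x = J.det := Pool.Agent.W930.CG.bw_one dd C.x C.hx0
    rw [h2]
    conv_lhs => rw [hDJ]
    exact hω.1 J D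
  by_cases hz : ω D = 0
  · left
    rw [hz, zero_mul, zero_div]
  have hdd0 : ω dd ≠ 0 := by
    rw [h1]
    exact mul_ne_zero (pow_ne_zero _ hB) hz
  obtain ⟨s, hs, hs0, hle⟩ := hjac.resolve_left hdd0
  right
  refine ⟨s, hs, hs0, ?_⟩
  rw [h1, P.ord_mul (pow_ne_zero _ hB) hz, P.ord_pow] at hle
  rw [P.ord_div (mul_ne_zero hz (C.Lam_ne m)) (pow_ne_zero _ (C.G_ne 0)),
    P.ord_mul hz (C.Lam_ne m), C.ord_Lam, P.ord_pow, C.ord_G hdat]
  have h2 : ∑ t, P.ord (aeval C.x (Φ.F t)) = (∑ k, (Φ.dF k : ℤ)) * α + ∑ k, (vv k : ℤ) := by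
    rw [Finset.sum_mul, ← Finset.sum_add_distrib]
    exact Finset.sum_congr rfl fun k _ => hdat.hv k
  rw [h2]
  have h3 : P.ord (bw dd C.x) ≤ ((d : ℤ) + 2) * α + ∑ k, (vv k : ℤ) := by
    push_cast at hle0
    nlinarith
  have h4 : (m : ℤ) * P.ord (bw dd C.x) ≤ m * (((d : ℤ) + 2) * α + ∑ k, (vv k : ℤ)) :=
    mul_le_mul_of_nonneg_left h3 (by positivity)
  have h4' : (m : ℚ) * P.ord (bw dd C.x) ≤ m * (((d : ℚ) + 2) * α + ∑ k, (vv k : ℚ)) := by
    exact_mod_cast h4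
  have hα' : (0 : ℚ) ≤ -α := by
    have : (0 : ℤ) ≤ -α := by omega
    exact_mod_cast this
  have h5 : 0 ≤ ((Φ.E : ℚ) * q - (∑ k, (Φ.dF k : ℚ) - (d + 2)) * m) * (- α) :=
    mul_nonneg (by linarith) hα'
  push_cast at hle ⊢
  nlinarith

end

end Cv

end Pool.Agent.J4.H19.LC
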